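import Pool.Agent.H76.VKT.VkClassW

/-!
# VKT: the Vinogradov-Korobov library `Pool.Agent.H97.VK` with parameters

* `vk_exp_t`: exponential sums `∑ (n+β)^{2πit}` over intervals in `[0, K]`, `K ≥ exp((log x)^t0)`, every `t0 ∈ (2/3, 1)`;
* `vk_class_t`: `∑_{n ≤ z, n ≡ u (d)} Λ(n) n^{2πit}`, `z ≥ exp((log x)^t1)`, every `t1 ∈ (2/3, 1)`, `d ≤ (log x)^B`.
-/

set_option autoImplicit false

namespace Pool.Agent.H76.VKT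

open Finset
open Pool.Agent.H91.EHA
open Pool.Agent.H91.PK (ee)

theorem vk_exp_t (t0 : ℝ) (h : 2 / 3 < t0) (h1 : t0 < 1) (A : ℕ) : ∃ x0 : ℕ, ∀ x : ℕ, x0 ≤ x →
    ∀ (K a b : ℕ) (β t : ℝ), Real.exp (Real.log x ^ t0) ≤ K → K ≤ x → b ≤ K → 0 ≤ β → β ≤ 1 →
    1 ≤ |t| → |t| ≤ (x : ℝ) ^ (3 : ℕ) →
    ‖∑ n ∈ Ioc a b, ee (t * Real.log (n + β))‖ ≤ K * (100 / |t| + 1 / Real.log x ^ A) :=
  @vk_exp ⟨t0, h, h1⟩ A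

theorem vk_class_t (t1 : ℝ) (h : 2 / 3 < t1) (h1 : t1 < 1) (K B : ℕ) : ∃ K' x0 : ℕ, ∀ x : ℕ, x0 ≤ x →
    ∀ (d u z : ℕ) (t : ℝ), 1 ≤ d → (d : ℝ) ≤ Real.log x ^ B →
    Real.exp (Real.log x ^ t1) ≤ z → z ≤ x ^ 2 → Real.log x ^ K' ≤ |t| → |t| ≤ (x : ℝ) ^ (2 : ℕ) →
    ‖∑ n ∈ (Icc 1 z).filter (fun n => n % d = u % d), ((Lam n : ℝ) : ℂ) * ee (t * Real.log n)‖ ≤
      z / Real.log x ^ K :=
  @vk_class_w ⟨(2 / 3 + t1) / 2, by linarith, by linarith⟩ t1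
    (show (2 / 3 + t1) / 2 < t1 by linarith) K B

end Pool.Agent.H76.VKT
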