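import Pool.Agent.H76.VKT.PSum
import Pool.Agent.H97.VK.BrunC

/-!
# VKT (H97/VK of helper97 with the parameter `T0.t` in place of `9/10`, `t1` in place of `19/20`) BrunT: twisted sums over rough numbers

Proof.  `y = Yx x`, `r = ⌈20 (A+1) LL⌉₊ + 1`, `log u ≥ D · LL · L9`, `D = 21(A+1) + 10`, so `u ≥ y^{r+3}` (`log y ≤ L9`).
`ch_apply`, `brun_ineq`: `|∑_{n≤u} ch(n) ee(t log n) - ∑_{m ∈ bdl y r} μ(m) ∑_{n ≤ u, m ∣ n} χ(n) ee(t log n)| ≤ ∑_{m ∈ bd y r} u/m`.
`n = m k`: `χ(m) ee(t log m) ∑_{k ≤ u/m} χ(k) ee(t log k)`, `u/m ≥ y^{2} ≥ y + 1` (`bdl_le`, `m ≤ y^r`; natural division), `psum (A+3) B`: `≤ (u/m)/L^{A+3}`;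
`brun_sum`: total `≤ C (log y) u/L^{A+3} ≤ u/(2 L^A)`.
`brun_tail`: `log log y ≤ LL` and `LL` large: `e (LL + C)/r ≤ 1/e`, so the sum is `≤ e^{-r} ≤ L^{-20(A+1)}`.
-/

set_option autoImplicit false

namespace Pool.Agent.H76.VKT

open Finset
open Pool.Agent.H91.PK (ee)
open Pool.Agent.H97.VK (bd bdl brun_ineq brun_tail brun_sum bdl_le)

/-- the twisted character -/
private noncomputable def brunT_f {d : ℕ} (χ : DirichletCharacter ℂ d) (t : ℝ) (n : ℕ) : ℂ :=
  χ (n : ZMod d) * ee (t * Real.log n)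

private theorem brunT_f_le {d : ℕ} (χ : DirichletCharacter ℂ d) (t : ℝ) (n : ℕ) :
    ‖brunT_f χ t n‖ ≤ 1 := by
  unfold brunT_f
  rw [norm_mul, Pool.Agent.H91.PK.LSa_norm_ee, mul_one]
  exact DirichletCharacter.norm_le_one _ _

private theorem brunT_f_mul {d : ℕ} (χ : DirichletCharacter ℂ d) (t : ℝ) (m k : ℕ) (hm : m ≠ 0)
    (hk : k ≠ 0) : brunT_f χ t (m * k) = brunT_f χ t m * brunT_f χ t k := by
  unfold brunT_f
  have hm' : (m : ℝ) ≠ 0 := by exact_mod_cast hm
  have hk' : (k : ℝ) ≠ 0 := by exact_mod_cast hk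
  rw [Nat.cast_mul, Nat.cast_mul, Real.log_mul hm' hk', mul_add, Pool.Agent.H91.PK.LSa_ee_add, map_mul]
  ring

private theorem brunT_multiples {M : Type} [AddCommMonoid M] (u m : ℕ) (hm : 1 ≤ m) (F : ℕ → M) :
    ∑ n ∈ (Icc 1 u).filter (fun n => m ∣ n), F n = ∑ k ∈ Icc 1 (u / m), F (m * k) := by
  symm
  refine sum_bij (fun k _ => m * k) ?_ ?_ ?_ ?_
  · intro k hk
    rw [mem_Icc] at hk
    rw [mem_filter, mem_Icc]
    refine ⟨⟨Nat.mul_pos hm hk.1, ?_⟩, Dvd.intro _ rfl⟩
    calc m * k ≤ m * (u / m) := Nat.mul_le_mul_left _ hk.2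
      _ ≤ u := Nat.mul_div_le _ _
  · intro a _ b _ hab
    exact Nat.eq_of_mul_eq_mul_left hm hab
  · intro n hn
    rw [mem_filter, mem_Icc] at hn
    obtain ⟨⟨h1, h2⟩, k, rfl⟩ := hn
    refine ⟨k, ?_, rfl⟩
    rw [mem_Icc]
    constructor
    · rcases Nat.eq_zero_or_pos k with h | h
      · rw [h, mul_zero] at h1
        omega
      · exact h
    · rw [Nat.le_div_iff_mul_le hm]
      calc k * m = m * k := mul_comm _ _
        _ ≤ u := h2
  · intro k _
    rfl

/-- the main inequality. -/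
private theorem brunT_main {d : ℕ} (χ : DirichletCharacter ℂ d) (t : ℝ) (y r u : ℕ) (hr : 1 ≤ r)
    (E : ℝ) (hE : ∀ m ∈ bdl y r, ‖∑ k ∈ Icc 1 (u / m), brunT_f χ t k‖ ≤ ((u / m : ℕ) : ℝ) * E)
    (hE0 : 0 ≤ E) :
    ‖∑ n ∈ Icc 1 u, (if n.Coprime (primorial y) then brunT_f χ t n else 0)‖ ≤
      u * E * ∑ m ∈ bdl y r, (1 : ℝ) / m + u * ∑ m ∈ bd y r, (1 : ℝ) / m := by
  set f : ℕ → ℂ := brunT_f χ t with hf
  set h : ℕ → ℝ := fun n => ∑ m ∈ (bdl y r).filter (fun m => m ∣ n), (ArithmeticFunction.moebius m : ℝ)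
    with hh
  set g : ℕ → ℝ := fun n => if n.Coprime (primorial y) then (1 : ℝ) else 0 with hg
  have hpos : ∀ m, m ∣ primorial y → 1 ≤ m := fun m hm => Nat.pos_of_dvd_of_pos hm (primorial_pos y)
  have hposl : ∀ m ∈ bdl y r, 1 ≤ m := fun m hm => by
    unfold bdl at hm
    exact hpos m (Nat.dvd_of_mem_divisors (mem_filter.1 hm).1)
  have hposb : ∀ m ∈ bd y r, 1 ≤ m := fun m hm => by
    unfold bd at hm
    exact hpos m (Nat.dvd_of_mem_divisors (mem_filter.1 hm).1)
  have e1 : ∑ n ∈ Icc 1 u, (if n.Coprime (primorial y) then f n else 0) =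
      ∑ n ∈ Icc 1 u, ((h n : ℝ) : ℂ) * f n + ∑ n ∈ Icc 1 u, (((g n - h n : ℝ)) : ℂ) * f n := by
    rw [← sum_add_distrib]
    refine sum_congr rfl fun n _ => ?_
    rw [hg]
    dsimp only
    split_ifs
    · push_cast
      ring
    · push_cast
      ring
  -- the error term
  have e2 : ‖∑ n ∈ Icc 1 u, (((g n - h n : ℝ)) : ℂ) * f n‖ ≤ u * ∑ m ∈ bd y r, (1 : ℝ) / m := by
    calc ‖∑ n ∈ Icc 1 u, (((g n - h n : ℝ)) : ℂ) * f n‖
        ≤ ∑ n ∈ Icc 1 u, ‖(((g n - h n : ℝ)) : ℂ) * f n‖ := norm_sum_le _ _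
      _ ≤ ∑ n ∈ Icc 1 u, (((bd y r).filter (fun m => m ∣ n)).card : ℝ) := by
          refine sum_le_sum fun n hn => ?_
          rw [norm_mul, Complex.norm_real, Real.norm_eq_abs]
          have h1 := brun_ineq y r n hr (mem_Icc.1 hn).1
          have h2 := brunT_f_le χ t n
          calc |g n - h n| * ‖f n‖ ≤ |g n - h n| * 1 :=
                mul_le_mul_of_nonneg_left h2 (abs_nonneg _)
            _ = |g n - h n| := mul_one _
            _ ≤ _ := h1
      _ = ∑ m ∈ bd y r, (((Icc 1 u).filter (fun n => m ∣ n)).card : ℝ) := by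
          have h3 : ∀ n, (((bd y r).filter (fun m => m ∣ n)).card : ℝ) =
              ∑ m ∈ bd y r, if m ∣ n then (1 : ℝ) else 0 := by
            intro n
            rw [card_filter]
            push_cast
            rfl
          have h4 : ∀ m, (((Icc 1 u).filter (fun n => m ∣ n)).card : ℝ) =
              ∑ n ∈ Icc 1 u, if m ∣ n then (1 : ℝ) else 0 := by
            intro m
            rw [card_filter]
            push_cast
            rfl
          rw [sum_congr rfl fun n _ => h3 n, sum_comm, sum_congr rfl fun m _ => (h4 m).symm]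
      _ ≤ ∑ m ∈ bd y r, (u : ℝ) * (1 / (m : ℝ)) := by
          refine sum_le_sum fun m hm => ?_
          have h5 : ((Icc 1 u).filter (fun n => m ∣ n)).card = u / m := by
            rw [card_eq_sum_ones, brunT_multiples u m (hposb m hm), ← card_eq_sum_ones, Nat.card_Icc]
            simp
          rw [h5, mul_one_div]
          exact Nat.cast_div_le
      _ = u * ∑ m ∈ bd y r, (1 : ℝ) / m := by rw [mul_sum]
  -- the main term
  have e3 : ‖∑ n ∈ Icc 1 u, ((h n : ℝ) : ℂ) * f n‖ ≤ u * E * ∑ m ∈ bdl y r, (1 : ℝ) / m := by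
    have e4 : ∑ n ∈ Icc 1 u, ((h n : ℝ) : ℂ) * f n =
        ∑ m ∈ bdl y r, ((ArithmeticFunction.moebius m : ℝ) : ℂ) * (f m * ∑ k ∈ Icc 1 (u / m), f k) := by
      have h6 : ∀ n, ((h n : ℝ) : ℂ) * f n =
          ∑ m ∈ bdl y r, if m ∣ n then ((ArithmeticFunction.moebius m : ℝ) : ℂ) * f n else 0 := by
        intro n
        rw [hh]
        dsimp only
        rw [Complex.ofReal_sum, sum_mul, sum_filter]
      rw [sum_congr rfl fun n _ => h6 n, sum_comm]
      refine sum_congr rfl fun m hm => ?_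
      rw [← sum_filter, ← mul_sum, brunT_multiples u m (hposl m hm)]
      congr 1
      rw [mul_sum]
      refine sum_congr rfl fun k hk => ?_
      rw [hf]
      exact brunT_f_mul χ t m k (by have := hposl m hm; omega) (by have := (mem_Icc.1 hk).1; omega)
    rw [e4]
    calc ‖∑ m ∈ bdl y r, ((ArithmeticFunction.moebius m : ℝ) : ℂ) * (f m * ∑ k ∈ Icc 1 (u / m), f k)‖
        ≤ ∑ m ∈ bdl y r, ‖((ArithmeticFunction.moebius m : ℝ) : ℂ) * (f m * ∑ k ∈ Icc 1 (u / m), f k)‖ :=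
          norm_sum_le _ _
      _ ≤ ∑ m ∈ bdl y r, (u : ℝ) * E * (1 / (m : ℝ)) := by
          refine sum_le_sum fun m hm => ?_
          rw [norm_mul, norm_mul, Complex.norm_real, Real.norm_eq_abs]
          have h7 : |((ArithmeticFunction.moebius m : ℤ) : ℝ)| ≤ 1 := by
            have := ArithmeticFunction.abs_moebius_le_one (n := m)
            exact_mod_cast this
          have h8 : ‖f m‖ ≤ 1 := brunT_f_le χ t m
          have h9 : ‖∑ k ∈ Icc 1 (u / m), f k‖ ≤ ((u / m : ℕ) : ℝ) * E := hE m hm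
          have h10 : ((u / m : ℕ) : ℝ) ≤ (u : ℝ) / m := Nat.cast_div_le
          calc |((ArithmeticFunction.moebius m : ℤ) : ℝ)| * (‖f m‖ * ‖∑ k ∈ Icc 1 (u / m), f k‖)
              ≤ 1 * (1 * (((u / m : ℕ) : ℝ) * E)) := by
                refine mul_le_mul h7 ?_ (by positivity) zero_le_one
                exact mul_le_mul h8 h9 (norm_nonneg _) zero_le_one
            _ = ((u / m : ℕ) : ℝ) * E := by ring
            _ ≤ (u : ℝ) / m * E := mul_le_mul_of_nonneg_right h10 hE0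
            _ = (u : ℝ) * E * (1 / (m : ℝ)) := by ring
      _ = u * E * ∑ m ∈ bdl y r, (1 : ℝ) / m := by rw [mul_sum]
  rw [e1]
  exact (norm_add_le _ _).trans (add_le_add e3 e2)

private theorem brunT_ev (c : ℝ) : ∃ x0 : ℕ, ∀ x : ℕ, x0 ≤ x → c ≤ LL x := by
  have h1 : Filter.Tendsto (fun x : ℕ => LL x) Filter.atTop Filter.atTop := by
    unfold LL
    exact Real.tendsto_log_atTop.comp (Real.tendsto_log_atTop.comp tendsto_natCast_atTop_atTop)
  obtain ⟨x0, hx0⟩ := Filter.eventually_atTop.1 (h1.eventually_ge_atTop c)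
  exact ⟨x0, hx0⟩

theorem rtw [T0] (A B : ℕ) : ∃ K' D x0 : ℕ, ∀ x : ℕ, x0 ≤ x → ∀ (d : ℕ) (χ : DirichletCharacter ℂ d) (t : ℝ) (u : ℕ),
    1 ≤ d → (d : ℝ) ≤ Real.log x ^ B → Real.log x ^ K' ≤ |t| → |t| ≤ (x : ℝ) ^ (3 : ℕ) → D * (LL x * L9 x) ≤ Real.log u →
    ‖∑ n ∈ Icc 1 u, ch x χ (n : ZMod (qm x d)) * ee (t * Real.log n)‖ ≤ u / Real.log x ^ A := by
  obtain ⟨K', x1, hps⟩ := psum (A + 3) B
  obtain ⟨x2, hev⟩ := yx_ev
  obtain ⟨C1, hC1, htail⟩ := brun_tail
  obtain ⟨C2, hC2, hsum⟩ := brun_sum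
  obtain ⟨x3, h3⟩ := brunT_ev (C1 + 2 * C2 + 2)
  refine ⟨K', 20 * (A + 1) + 4, max x1 (max x2 x3), ?_⟩
  intro x hx d χ t u hd hdB ht1 ht2 hu
  have hx1 : x1 ≤ x := (le_max_left _ _).trans hx
  have hx2 : x2 ≤ x := ((le_max_left _ _).trans (le_max_right _ _)).trans hx
  have hx3 : x3 ≤ x := ((le_max_right _ _).trans (le_max_right _ _)).trans hx
  obtain ⟨hy3, hyL, _, hLL1, hL91, hL1, _⟩ := hev x hx2
  have hLLc := h3 x hx3
  set L : ℝ := Real.log x with hL
  set y : ℕ := Yx x with hy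
  have hLLdef : LL x = Real.log L := rfl
  have hLpos : 0 < L := by linarith
  have hexpLL : Real.exp (LL x) = L := by rw [hLLdef, Real.exp_log hLpos]
  have hLbig : C1 + 2 * C2 + 2 ≤ L := by
    have h4 : LL x + 1 ≤ L := by
      have := Real.add_one_le_exp (LL x)
      rwa [hexpLL] at this
    linarith
  have hL9L : L9 x ≤ L := by
    unfold L9
    calc L ^ T0.t ≤ L ^ (1 : ℝ) := Real.rpow_le_rpow_of_exponent_le hL1 T0.hi.le
      _ = L := Real.rpow_one L
  set r : ℕ := ⌈20 * ((A : ℝ) + 1) * LL x⌉₊ + 1 with hr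
  have hr1 : 1 ≤ r := by omega
  have hA0 : (0 : ℝ) ≤ (A : ℝ) := Nat.cast_nonneg A
  have hrlow : 20 * ((A : ℝ) + 1) * LL x ≤ r := by
    have h5 := Nat.le_ceil (20 * ((A : ℝ) + 1) * LL x)
    rw [hr]
    push_cast
    linarith
  have hrup : (r : ℝ) ≤ 20 * ((A : ℝ) + 1) * LL x + 2 := by
    have h5 := Nat.ceil_lt_add_one (a := 20 * ((A : ℝ) + 1) * LL x) (by positivity)
    rw [hr]
    push_cast
    linarith
  have hrpos : (0 : ℝ) < r := by exact_mod_cast hr1
  -- `y ^ (r + 2) ≤ u`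
  have hypos : (0 : ℝ) < y := by
    have : 0 < y := by omega
    exact_mod_cast this
  have hlogu : ((r + 2 : ℕ) : ℝ) * Real.log y ≤ Real.log u := by
    have hly : 0 ≤ Real.log y := Real.log_natCast_nonneg y
    have h6 : ((r + 2 : ℕ) : ℝ) ≤ ((20 * (A + 1) + 4 : ℕ) : ℝ) * LL x := by
      push_cast
      nlinarith
    calc ((r + 2 : ℕ) : ℝ) * Real.log y ≤ ((r + 2 : ℕ) : ℝ) * L9 x :=
          mul_le_mul_of_nonneg_left hyL (Nat.cast_nonneg _)
      _ ≤ ((20 * (A + 1) + 4 : ℕ) : ℝ) * LL x * L9 x :=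
          mul_le_mul_of_nonneg_right h6 (by linarith)
      _ = ((20 * (A + 1) + 4 : ℕ) : ℝ) * (LL x * L9 x) := by ring
      _ ≤ Real.log u := hu
  have hupos : (0 : ℝ) < u := by
    rcases Nat.eq_zero_or_pos u with h | h
    · exfalso
      rw [h] at hu
      simp only [Nat.cast_zero, Real.log_zero] at hu
      have h7 : (0 : ℝ) < ((20 * (A + 1) + 4 : ℕ) : ℝ) * (LL x * L9 x) := by
        have : (0 : ℝ) < ((20 * (A + 1) + 4 : ℕ) : ℝ) := by
          have : 0 < 20 * (A + 1) + 4 := by omega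
          exact_mod_cast this
        have h8 : (0 : ℝ) < LL x * L9 x := by nlinarith
        exact mul_pos this h8
      linarith
    · exact_mod_cast h
  have hyu : y ^ (r + 2) ≤ u := by
    have h7 : ((y : ℝ)) ^ (r + 2) ≤ u := by
      rw [← Real.log_le_log_iff (by positivity) hupos, Real.log_pow]
      exact hlogu
    exact_mod_cast h7
  have hdiv : ∀ m ∈ bdl y r, y + 1 ≤ u / m := by
    intro m hm
    have hm1 : 1 ≤ m := by
      unfold bdl at hm
      exact Nat.pos_of_dvd_of_pos (Nat.dvd_of_mem_divisors (mem_filter.1 hm).1) (primorial_pos y)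
    rw [Nat.le_div_iff_mul_le hm1]
    have h8 : m ≤ y ^ r := bdl_le y r m (by omega) hm
    calc (y + 1) * m ≤ (y * y) * y ^ r := by
          refine Nat.mul_le_mul ?_ h8
          nlinarith
      _ = y ^ (r + 2) := by ring
      _ ≤ u := hyu
  have hE : ∀ m ∈ bdl y r, ‖∑ k ∈ Icc 1 (u / m), brunT_f χ t k‖ ≤
      ((u / m : ℕ) : ℝ) * (1 / L ^ (A + 3)) := by
    intro m hm
    have h9 := hps x hx1 d χ t (u / m) hd hdB ht1 ht2 (hdiv m hm)
    unfold brunT_f
    rw [mul_one_div]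
    exact h9
  have hmain := brunT_main χ t y r u hr1 (1 / L ^ (A + 3)) hE (by positivity)
  have hrew : ∑ n ∈ Icc 1 u, ch x χ (n : ZMod (qm x d)) * ee (t * Real.log n) =
      ∑ n ∈ Icc 1 u, (if n.Coprime (primorial y) then brunT_f χ t n else 0) := by
    refine sum_congr rfl fun n _ => ?_
    rw [ch_apply x hd χ n]
    unfold brunT_f
    split_ifs
    · rfl
    · rw [zero_mul]
  rw [hrew]
  refine hmain.trans ?_
  have hLA : 0 < L ^ A := by positivity
  -- first part
  have p1 : (u : ℝ) * (1 / L ^ (A + 3)) * ∑ m ∈ bdl y r, (1 : ℝ) / m ≤ u / L ^ A / 2 := by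
    have h10 := hsum y r hy3
    have h11 : C2 * Real.log y ≤ C2 * L := mul_le_mul_of_nonneg_left (hyL.trans hL9L) (by linarith)
    calc (u : ℝ) * (1 / L ^ (A + 3)) * ∑ m ∈ bdl y r, (1 : ℝ) / m
        ≤ (u : ℝ) * (1 / L ^ (A + 3)) * (C2 * L) :=
          mul_le_mul_of_nonneg_left (h10.trans h11) (by positivity)
      _ = (u : ℝ) / L ^ A * (C2 / L ^ 2) := by
          rw [pow_add]
          field_simp
      _ ≤ (u : ℝ) / L ^ A * (1 / 2) := by
          refine mul_le_mul_of_nonneg_left ?_ (by positivity)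
          rw [div_le_div_iff₀ (by positivity) (by norm_num)]
          nlinarith
      _ = u / L ^ A / 2 := by ring
  -- second part
  have p2 : (u : ℝ) * ∑ m ∈ bd y r, (1 : ℝ) / m ≤ u / L ^ A / 2 := by
    have h12 := htail y r hy3 hr1
    have hlogy1 : 1 ≤ Real.log y := by
      have h13 : Real.exp 1 ≤ y := by
        have := Real.exp_one_lt_d9
        have h14 : (3 : ℝ) ≤ y := by exact_mod_cast hy3
        linarith
      rw [← Real.log_exp 1]
      exact Real.log_le_log (Real.exp_pos 1) h13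
    have hll : Real.log (Real.log y) ≤ LL x := by
      rw [hLLdef]
      exact Real.log_le_log (by linarith) (hyL.trans hL9L)
    have hll0 : 0 ≤ Real.log (Real.log y) := Real.log_nonneg hlogy1
    have hbase : Real.exp 1 * (Real.log (Real.log y) + C1) / r ≤ Real.exp (-1) := by
      rw [div_le_iff₀ hrpos]
      have h15 : Real.log (Real.log y) + C1 ≤ 2 * LL x := by linarith
      have h16 : Real.exp 1 < 3 := by
        have := Real.exp_one_lt_d9
        linarith
      have h17 : Real.exp 1 * Real.exp (-1) = 1 := by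
        rw [← Real.exp_add]
        simp
      have h18 : (1 : ℝ) / 3 ≤ Real.exp (-1) := by
        have hp : 0 < Real.exp (-1) := Real.exp_pos _
        rw [div_le_iff₀ (by norm_num)]
        nlinarith
      have h19 : 20 * LL x ≤ r := by nlinarith
      calc Real.exp 1 * (Real.log (Real.log y) + C1) ≤ 3 * (2 * LL x) := by
            refine mul_le_mul h16.le h15 (by linarith) (by norm_num)
        _ ≤ 1 / 3 * r := by nlinarith
        _ ≤ Real.exp (-1) * r := mul_le_mul_of_nonneg_right h18 hrpos.le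
    have hbase0 : 0 ≤ Real.exp 1 * (Real.log (Real.log y) + C1) / r := by
      have : 0 ≤ Real.log (Real.log y) + C1 := by linarith
      positivity
    have h20 : (Real.exp 1 * (Real.log (Real.log y) + C1) / r) ^ r ≤ 1 / L ^ A / 2 := by
      calc (Real.exp 1 * (Real.log (Real.log y) + C1) / r) ^ r ≤ Real.exp (-1) ^ r :=
            pow_le_pow_left₀ hbase0 hbase r
        _ = Real.exp (-(r : ℝ)) := by
            rw [← Real.exp_nat_mul]
            congr 1
            ring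
        _ ≤ Real.exp (-(((A : ℝ) + 1) * LL x)) := by
            refine Real.exp_le_exp.2 ?_
            nlinarith
        _ = 1 / L ^ (A + 1) := by
            rw [Real.exp_neg, one_div]
            congr 1
            have : ((A : ℝ) + 1) * LL x = ((A + 1 : ℕ) : ℝ) * LL x := by push_cast; ring
            rw [this, Real.exp_nat_mul, hexpLL]
        _ ≤ 1 / L ^ A / 2 := by
            rw [div_div]
            refine one_div_le_one_div_of_le (by positivity) ?_
            rw [pow_succ]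
            refine mul_le_mul_of_nonneg_left ?_ hLA.le
            linarith
    calc (u : ℝ) * ∑ m ∈ bd y r, (1 : ℝ) / m ≤ u * (1 / L ^ A / 2) :=
          mul_le_mul_of_nonneg_left (h12.trans h20) hupos.le
      _ = u / L ^ A / 2 := by ring
  linarith

end Pool.Agent.H76.VKT
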