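import Pool.Agent.H91.EHA.SwF
import Pool.Agent.H91.PK.LSa

/-!
# PROJECT VKT (H97/VK of helper97 with the parameter `T0.t` in place of `9/10`), Part I.b: sieved Dirichlet characters

Notation: `L = log x`, `L9 x = L^{9/10}`, `LL x = log L`, `y = Yx x = ⌊exp(L^{9/10})⌋`.  A character `χ` mod `d` is replaced by the character
`ch x χ` modulo `qm x d = d · y#` induced by it: `ch x χ n = χ(n)` if `n` has no prime factor `≤ y`, otherwise `0`.
The tools `Lk`, `Fk` (`∑ χ(n) (log n)^k n^{-s}`, `∑ Λ(n) χ(n) (log n)^k n^{-s}`) of EHA are applied to `ch x χ`.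
-/

set_option autoImplicit false

namespace Pool.Agent.H76.VKT

open Finset
open Pool.Agent.H91.EHA
open Pool.Agent.H91.PK (ee)

/-- the parameter `t ∈ (2/3, 1)`; it replaces `9/10` in `Pool.Agent.H97.VK` -/
class T0 where
  /-- the exponent -/
  t : ℝ
  lo : 2 / 3 < t
  hi : t < 1

variable [T0]

/-- `(log x)^t` -/
noncomputable def L9 (x : ℕ) : ℝ := Real.log x ^ T0.t

/-- `log log x` -/
noncomputable def LL (x : ℕ) : ℝ := Real.log (Real.log x)

/-- the sieving level -/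
noncomputable def Yx (x : ℕ) : ℕ := ⌊Real.exp (L9 x)⌋₊

/-- the modulus `d · y#` -/
noncomputable def qm (x d : ℕ) : ℕ := d * primorial (Yx x)

/-- the character modulo `qm x d` induced by `χ` -/
noncomputable def ch (x : ℕ) {d : ℕ} (χ : DirichletCharacter ℂ d) : DirichletCharacter ℂ (qm x d) :=
  DirichletCharacter.changeLevel (Dvd.intro _ rfl) χ

theorem qm_pos (x d : ℕ) (hd : 1 ≤ d) : 1 ≤ qm x d :=
  Nat.mul_pos hd (primorial_pos _)

theorem ch_sq (x : ℕ) {d : ℕ} (χ : DirichletCharacter ℂ d) : ch x χ ^ 2 = ch x (χ ^ 2) := by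
  unfold ch
  rw [map_pow]
  rfl

theorem ch_apply (x : ℕ) {d : ℕ} (hd : 1 ≤ d) (χ : DirichletCharacter ℂ d) (n : ℕ) :
    ch x χ (n : ZMod (qm x d)) =
      if n.Coprime (primorial (Yx x)) then χ (n : ZMod d) else 0 := by
  have hq0 : qm x d ≠ 0 := by have := qm_pos x d hd; omega
  by_cases h1 : n.Coprime (qm x d)
  · have h2 : n.Coprime (primorial (Yx x)) := by
      unfold qm at h1
      exact (Nat.coprime_mul_iff_right.1 h1).2
    rw [if_pos h2]
    unfold ch
    have h3 : IsCoprime (n : ℤ) (qm x d : ℤ) := Nat.isCoprime_iff_coprime.2 h1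
    have h4 := DirichletCharacter.changeLevel_eq_cast_of_dvd' χ
      (Dvd.intro (primorial (Yx x)) rfl : d ∣ qm x d) h3
    rw [Int.cast_natCast, Int.cast_natCast] at h4
    exact h4
  · have h2 : ¬ IsUnit (n : ZMod (qm x d)) := by
      rw [ZMod.isUnit_iff_coprime]; exact h1
    rw [MulChar.map_nonunit _ h2]
    split_ifs with h3
    · have h4 : ¬ n.Coprime d := by
        intro h5
        apply h1
        unfold qm
        exact Nat.coprime_mul_iff_right.2 ⟨h5, h3⟩
      have h5 : ¬ IsUnit (n : ZMod d) := by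
        rw [ZMod.isUnit_iff_coprime]; exact h4
      rw [MulChar.map_nonunit _ h5]
    · rfl

theorem ch_norm_le (x : ℕ) {d : ℕ} (χ : DirichletCharacter ℂ d) (n : ZMod (qm x d)) : ‖ch x χ n‖ ≤ 1 :=
  DirichletCharacter.norm_le_one _ _

omit [T0] in
theorem cop_gt (y n : ℕ) (hy : 2 ≤ y) (hn : n.Coprime (primorial y)) : n = 1 ∨ y < n := by
  by_contra hcon
  push Not at hcon
  obtain ⟨h1, h2⟩ := hcon
  have h3 : n.minFac.Prime := Nat.minFac_prime h1
  rcases Nat.eq_zero_or_pos n with h0 | h0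
  · subst h0
    have h4 : 2 ∣ primorial y := Nat.prime_two.dvd_primorial_iff.2 hy
    rw [Nat.coprime_zero_left] at hn
    rw [hn] at h4
    omega
  · have h4 : n.minFac ≤ y := (Nat.minFac_le h0).trans h2
    have h5 : n.minFac ∣ primorial y := h3.dvd_primorial_iff.2 h4
    exact Nat.not_coprime_of_dvd_of_dvd h3.one_lt (Nat.minFac_dvd n) h5 hn

theorem yx_ev : ∃ x0 : ℕ, ∀ x : ℕ, x0 ≤ x → 3 ≤ Yx x ∧ Real.log (Yx x) ≤ L9 x ∧ L9 x / 2 ≤ Real.log (Yx x) ∧
    1 ≤ LL x ∧ 1 ≤ L9 x ∧ 1 ≤ Real.log x ∧ (Yx x : ℝ) + 1 ≤ x := by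
  have hlo := T0.lo
  have hhi := T0.hi
  have hev : ∀ᶠ L : ℝ in Filter.atTop, 1024 ≤ L ∧ 512 ≤ L ^ T0.t ∧ 2 ≤ L ^ (1 - T0.t) := by
    filter_upwards [Filter.eventually_ge_atTop (1024 : ℝ),
      (tendsto_rpow_atTop (show 0 < T0.t by linarith)).eventually_ge_atTop 512,
      (tendsto_rpow_atTop (show 0 < 1 - T0.t by linarith)).eventually_ge_atTop 2] with L h1 h2 h3
    exact ⟨h1, h2, h3⟩
  obtain ⟨x1, hx1'⟩ := Filter.eventually_atTop.1
    ((Real.tendsto_log_atTop.comp tendsto_natCast_atTop_atTop).eventually hev)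
  refine ⟨max x1 1, fun x hx => ?_⟩
  obtain ⟨hL1, h512', hpow2⟩ := hx1' x ((le_max_left _ _).trans hx)
  simp only [Function.comp_apply] at hL1 h512' hpow2
  have hx0 : (0:ℝ) < x := by
    have : 1 ≤ x := (le_max_right _ _).trans hx
    exact_mod_cast this
  obtain ⟨L, hL⟩ : ∃ L, L = Real.log x := ⟨_, rfl⟩
  rw [← hL] at hL1 h512' hpow2
  have hL0 : 0 < L := by linarith
  obtain ⟨M, hM⟩ : ∃ M, M = L9 x := ⟨_, rfl⟩
  have hM1 : M = L ^ T0.t := by rw [hM, hL]; rfl
  have h512 : (512:ℝ) ≤ M := by rw [hM1]; exact h512'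
  have hML : M ≤ L / 2 := by
    have h2 : M * L ^ (1 - T0.t) = L := by
      rw [hM1, ← Real.rpow_add hL0]
      rw [show T0.t + (1 - T0.t) = 1 by ring, Real.rpow_one]
    have h3 : 0 ≤ M := by linarith
    nlinarith
  have hexpM : 512 ≤ Real.exp (M / 2) := by
    have := Real.add_one_le_exp (M / 2)
    have h4 : Real.exp (M / 4) ^ 2 = Real.exp (M / 2) := by
      rw [← Real.exp_nat_mul]; congr 1; push_cast; ring
    have h5 := Real.add_one_le_exp (M / 4)
    nlinarith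
  have hsq : Real.exp M = Real.exp (M / 2) * Real.exp (M / 2) := by
    rw [← Real.exp_add]; congr 1; ring
  have hY1 : (Yx x : ℝ) ≤ Real.exp M := by
    unfold Yx; rw [← hM]; exact Nat.floor_le (Real.exp_pos _).le
  have hY2 : Real.exp (M / 2) + 3 ≤ (Yx x : ℝ) := by
    have h1 : Real.exp M < (Yx x : ℝ) + 1 := by
      unfold Yx; rw [← hM]; exact Nat.lt_floor_add_one _
    nlinarith
  have hY0 : (0:ℝ) < Yx x := by linarith
  refine ⟨?_, ?_, ?_, ?_, ?_, ?_, ?_⟩
  · have h1 : (3:ℝ) ≤ (Yx x : ℝ) := by linarith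
    exact_mod_cast h1
  · rw [← hM, Real.log_le_iff_le_exp hY0]; exact hY1
  · rw [← hM, Real.le_log_iff_exp_le hY0]; linarith
  · unfold LL
    rw [← hL, Real.le_log_iff_exp_le hL0]
    have := Real.exp_one_lt_d9
    linarith
  · rw [← hM]; linarith
  · rw [← hL]; linarith
  · have h1 : Real.exp L = x := by rw [hL, Real.exp_log hx0]
    have h2 : Real.exp M ≤ Real.exp (L / 2) := Real.exp_le_exp.2 hML
    have h3 : Real.exp L = Real.exp (L / 2) * Real.exp (L / 2) := by
      rw [← Real.exp_add]; congr 1; ring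
    have h4 : 512 ≤ Real.exp (L / 2) := by
      have := Real.add_one_le_exp (L / 2)
      linarith
    rw [← h1]
    nlinarith

end Pool.Agent.H76.VKT
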