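import Pool.Agent.H76.VKT.Low

/-!
# VKT (H97/VK of helper97 with the parameter `T0.t` in place of `9/10`, `t1` in place of `19/20`) FkUp: bounds for the series of `Λ(n) ψ(n) (log n)^k`

Proof.  `Lk_succ_eq` (`EHA/SwF.lean`): `Lk (k+1) = ∑_{i ≤ k} C(k,i) Lk i · Fk (k-i)`; solve for `Fk k` and use strong induction on `k`, `lk_low`, `lk_up`:
`‖Fk k‖ ≤ (LL^7/c) (C L9^{k+1} LL^{k+2} + ∑_{1≤i≤k} C(k,i) C L9^i LL^{i+1} · C' L9^{k-i+1} LL^{20(k-i+1)}) ≤ C'' L9^{k+1} LL^{20(k+1)}`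
(`7 + k + 2 ≤ 20(k+1)`, `7 + i + 1 + 20(k-i+1) ≤ 20(k+1)` for `i ≥ 1`).
-/

set_option autoImplicit false

namespace Pool.Agent.H76.VKT

open Finset
open Pool.Agent.H91.EHA

theorem fk_up [T0] (k B : ℕ) : ∃ C : ℝ, 1 ≤ C ∧ ∃ K' x0 : ℕ, ∀ x : ℕ, x0 ≤ x → ∀ (d : ℕ) (χ : DirichletCharacter ℂ d) (s : ℂ),
    1 ≤ d → (d : ℝ) ≤ Real.log x ^ B → 1 + 1 / (4 * Real.log x) ≤ s.re → s.re ≤ 2 →
    Real.log x ^ K' ≤ |s.im| → |s.im| ≤ 3 * (x : ℝ) ^ (3 : ℕ) →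
    ‖Fk (qm x d) (ch x χ) k s‖ ≤ C * L9 x ^ (k + 1) * LL x ^ (20 * (k + 1)) := by
  induction k using Nat.strong_induction_on with
  | _ k ih =>
  have hlk : ∀ i : ℕ, ∃ C : ℝ, 1 ≤ C ∧ ∃ K' x0 : ℕ, ∀ x : ℕ, x0 ≤ x →
      ∀ (d : ℕ) (χ : DirichletCharacter ℂ d) (s : ℂ),
      1 ≤ d → (d : ℝ) ≤ Real.log x ^ B → 1 + 1 / (4 * Real.log x) ≤ s.re → s.re ≤ 2 →
      Real.log x ^ K' ≤ |s.im| → |s.im| ≤ 6 * (x : ℝ) ^ (3 : ℕ) →
      ‖Lk (qm x d) (ch x χ) i s‖ ≤ C * L9 x ^ i * LL x ^ (i + 1) := fun i => lk_up i B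
  have hfk : ∀ j : ℕ, ∃ C : ℝ, 1 ≤ C ∧ ∃ K' x0 : ℕ, j < k → ∀ x : ℕ, x0 ≤ x →
      ∀ (d : ℕ) (χ : DirichletCharacter ℂ d) (s : ℂ),
      1 ≤ d → (d : ℝ) ≤ Real.log x ^ B → 1 + 1 / (4 * Real.log x) ≤ s.re → s.re ≤ 2 →
      Real.log x ^ K' ≤ |s.im| → |s.im| ≤ 3 * (x : ℝ) ^ (3 : ℕ) →
      ‖Fk (qm x d) (ch x χ) j s‖ ≤ C * L9 x ^ (j + 1) * LL x ^ (20 * (j + 1)) := by
    intro j
    rcases lt_or_ge j k with h | h
    · obtain ⟨C, hC, K', x0, hx⟩ := ih j h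
      exact ⟨C, hC, K', x0, fun _ => hx⟩
    · exact ⟨1, le_rfl, 0, 0, fun h' => absurd h' (by omega)⟩
  choose CL hCL KL xL hL using hlk
  choose CF hCF KF xF hF using hfk
  obtain ⟨c, hc, hc1, K0, xc, hlow⟩ := lk_low B
  obtain ⟨xe, hxe⟩ := yx_ev
  obtain ⟨S, hS⟩ : ∃ S : ℝ, S = CL (k + 1) +
      ∑ i ∈ range k, (k.choose (i + 1) : ℝ) * (CL (i + 1) * CF (k - (i + 1))) := ⟨_, rfl⟩
  have hS1 : 1 ≤ S := by
    rw [hS]
    have h1 : 0 ≤ ∑ i ∈ range k, (k.choose (i + 1) : ℝ) * (CL (i + 1) * CF (k - (i + 1))) :=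
      sum_nonneg fun i _ => mul_nonneg (by positivity)
        (mul_nonneg (by linarith [hCL (i + 1)]) (by linarith [hCF (k - (i + 1))]))
    linarith [hCL (k + 1)]
  refine ⟨S / c, ?_, K0 + ∑ i ∈ range (k + 2), KL i + ∑ i ∈ range (k + 2), KF i,
    xc + xe + ∑ i ∈ range (k + 2), xL i + ∑ i ∈ range (k + 2), xF i, ?_⟩
  · rw [le_div_iff₀ hc]; linarith
  intro x hx d χ s hd hdB hs1 hs2 him1 him2
  have hxL : ∀ i, i < k + 2 → xL i ≤ x := by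
    intro i hi
    have h1 : xL i ≤ ∑ i ∈ range (k + 2), xL i :=
      single_le_sum (f := xL) (fun _ _ => Nat.zero_le _) (mem_range.2 hi)
    omega
  have hxF : ∀ i, i < k + 2 → xF i ≤ x := by
    intro i hi
    have h1 : xF i ≤ ∑ i ∈ range (k + 2), xF i :=
      single_le_sum (f := xF) (fun _ _ => Nat.zero_le _) (mem_range.2 hi)
    omega
  obtain ⟨-, -, -, hLL1, hL91, hlog1, -⟩ := hxe x (by omega)
  have himp : ∀ K : ℕ, K ≤ K0 + ∑ i ∈ range (k + 2), KL i + ∑ i ∈ range (k + 2), KF i →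
      Real.log x ^ K ≤ |s.im| := fun K hK =>
    (pow_le_pow_right₀ hlog1 hK).trans him1
  have hKL : ∀ i, i < k + 2 → Real.log x ^ KL i ≤ |s.im| := by
    intro i hi
    refine himp _ ?_
    have h1 : KL i ≤ ∑ i ∈ range (k + 2), KL i :=
      single_le_sum (f := KL) (fun _ _ => Nat.zero_le _) (mem_range.2 hi)
    omega
  have hKF : ∀ i, i < k + 2 → Real.log x ^ KF i ≤ |s.im| := by
    intro i hi
    refine himp _ ?_
    have h1 : KF i ≤ ∑ i ∈ range (k + 2), KF i :=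
      single_le_sum (f := KF) (fun _ _ => Nat.zero_le _) (mem_range.2 hi)
    omega
  have hx3 : (0:ℝ) ≤ (x : ℝ) ^ (3 : ℕ) := by positivity
  have him6 : |s.im| ≤ 6 * (x : ℝ) ^ (3 : ℕ) := by linarith
  have hs : 1 < s.re := by
    have h1 : 0 < 1 / (4 * Real.log x) := by positivity
    linarith
  have hLi : ∀ i, i < k + 2 →
      ‖Lk (qm x d) (ch x χ) i s‖ ≤ CL i * L9 x ^ i * LL x ^ (i + 1) := fun i hi =>
    hL i x (hxL i hi) d χ s hd hdB hs1 hs2 (hKL i hi) him6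
  have hFi : ∀ j, j < k →
      ‖Fk (qm x d) (ch x χ) j s‖ ≤ CF j * L9 x ^ (j + 1) * LL x ^ (20 * (j + 1)) := fun j hj =>
    hF j hj x (hxF j (by omega)) d χ s hd hdB hs1 hs2 (hKF j (by omega)) him2
  have hlow' := hlow x (by omega) d χ s hd hdB hs1 hs2 (himp K0 (by omega)) him2
  obtain ⟨a, ha⟩ : ∃ a, a = L9 x := ⟨_, rfl⟩
  obtain ⟨l, hl⟩ : ∃ l, l = LL x := ⟨_, rfl⟩
  rw [← ha] at hL91
  rw [← hl] at hLL1
  simp only [← ha, ← hl] at hLi hFi hlow' ⊢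
  have ha0 : 0 < a := by linarith
  have hl0 : 0 < l := by linarith
  have heq := Lk_succ_eq (qm x d) (ch x χ) k s hs
  rw [Finset.sum_range_succ'] at heq
  simp only [Nat.choose_zero_right, Nat.cast_one, one_mul, Nat.sub_zero] at heq
  have h1 : Lk (qm x d) (ch x χ) 0 s * Fk (qm x d) (ch x χ) k s =
      Lk (qm x d) (ch x χ) (k + 1) s -
      ∑ i ∈ range k, (k.choose (i + 1) : ℂ) * (Lk (qm x d) (ch x χ) (i + 1) s *
        Fk (qm x d) (ch x χ) (k - (i + 1)) s) := by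
    rw [heq]
    ring
  have h2 : ‖Lk (qm x d) (ch x χ) (k + 1) s‖ ≤ CL (k + 1) * (a ^ (k + 1) * l ^ (20 * k + 13)) := by
    refine (hLi (k + 1) (by omega)).trans ?_
    rw [mul_assoc]
    refine mul_le_mul_of_nonneg_left ?_ (by linarith [hCL (k + 1)])
    exact mul_le_mul_of_nonneg_left (pow_le_pow_right₀ hLL1 (by omega)) (by positivity)
  have h3 : ∀ i ∈ range k, ‖(k.choose (i + 1) : ℂ) * (Lk (qm x d) (ch x χ) (i + 1) s *
        Fk (qm x d) (ch x χ) (k - (i + 1)) s)‖ ≤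
      (k.choose (i + 1) : ℝ) * (CL (i + 1) * CF (k - (i + 1))) *
        (a ^ (k + 1) * l ^ (20 * k + 13)) := by
    intro i hi
    rw [mem_range] at hi
    rw [norm_mul, norm_mul, Complex.norm_natCast, mul_assoc]
    refine mul_le_mul_of_nonneg_left ?_ (by positivity)
    have hA := hLi (i + 1) (by omega)
    have hB := hFi (k - (i + 1)) (by omega)
    have hc1' := hCL (i + 1)
    have hc2' := hCF (k - (i + 1))
    calc ‖Lk (qm x d) (ch x χ) (i + 1) s‖ * ‖Fk (qm x d) (ch x χ) (k - (i + 1)) s‖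
        ≤ (CL (i + 1) * a ^ (i + 1) * l ^ (i + 1 + 1)) *
          (CF (k - (i + 1)) * a ^ (k - (i + 1) + 1) * l ^ (20 * (k - (i + 1) + 1))) :=
          mul_le_mul hA hB (norm_nonneg _) (by positivity)
      _ = CL (i + 1) * CF (k - (i + 1)) * (a ^ ((i + 1) + (k - (i + 1) + 1)) *
          l ^ ((i + 1 + 1) + 20 * (k - (i + 1) + 1))) := by
          rw [pow_add a (i + 1), pow_add l (i + 1 + 1)]; ring
      _ ≤ CL (i + 1) * CF (k - (i + 1)) * (a ^ (k + 1) * l ^ (20 * k + 13)) := by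
          refine mul_le_mul_of_nonneg_left ?_ (mul_nonneg (by linarith) (by linarith))
          rw [show (i + 1) + (k - (i + 1) + 1) = k + 1 by omega]
          exact mul_le_mul_of_nonneg_left (pow_le_pow_right₀ hLL1 (by omega)) (by positivity)
  have h4 : ‖Lk (qm x d) (ch x χ) 0 s‖ * ‖Fk (qm x d) (ch x χ) k s‖ ≤
      S * (a ^ (k + 1) * l ^ (20 * k + 13)) := by
    rw [← norm_mul, h1]
    refine (norm_sub_le _ _).trans ?_
    rw [hS, add_mul, sum_mul]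
    exact add_le_add h2 ((norm_sum_le _ _).trans (sum_le_sum h3))
  have h5 : c / l ^ 7 * ‖Fk (qm x d) (ch x χ) k s‖ ≤ S * (a ^ (k + 1) * l ^ (20 * k + 13)) :=
    (mul_le_mul_of_nonneg_right hlow' (norm_nonneg _)).trans h4
  have h6 : ‖Fk (qm x d) (ch x χ) k s‖ ≤ (S * (a ^ (k + 1) * l ^ (20 * k + 13))) / (c / l ^ 7) := by
    rw [le_div_iff₀ (by positivity), mul_comm]
    exact h5
  refine h6.trans (le_of_eq ?_)
  rw [show 20 * (k + 1) = (20 * k + 13) + 7 by ring, pow_add l (20 * k + 13) 7]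
  field_simp

end Pool.Agent.H76.VKT
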