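import Pool.Agent.H76.VKT.Up

/-!
# VKT (H97/VK of helper97 with the parameter `T0.t` in place of `9/10`, `t1` in place of `19/20`) Low: lower bound for the sieved `L`-functions

Proof (compare `EHA/SwC.lean`).  `q = qm x d`, `ψ = ch x χ`, `ψ^2 = ch x (χ^2)` (`ch_sq`), `s = σ + iτ`.
3-4-1: `DirichletCharacter.norm_LSeries_product_ge_one` (`Mathlib/NumberTheory/LSeries/Nonvanishing.lean`; `Lk q ψ 0` is the `LSeries` of `ψ`):
`‖Lk q 1 0 σ‖^3 ‖Lk q ψ 0 (σ+iτ)‖^4 ‖Lk q ψ^2 0 (σ+2iτ)‖ ≥ 1`.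
`zy_up`: `‖Lk q 1 0 σ‖ ≤ 2C/(η L9)` for `η = σ - 1 ≤ 1/L9`, `≤ 2C` for `η ≥ 1/L9`; `lk_up 0`: `‖Lk q ψ^2 0 (σ + 2iτ)‖ ≤ C LL` (`|2τ| ≤ 6 x^3`).
(a) `η ≥ 1/L9`: `‖L‖ ≥ c LL^{-1/4} ≥ c/LL^7`.
(b) `1/L9 ≥ η ≥ η0 := c'/(L9 LL^9)`: `‖L‖ ≥ c1 (η L9)^{3/4} LL^{-1/4} ≥ c1 c'^{3/4} LL^{-7}`.
(c) `1/(4L) ≤ η ≤ η0`: `‖L(σ+iτ) - L(1+η0+iτ)‖ ≤ η0 C2 L9 LL^2 = C2 c' LL^{-7}` (`lk_up 1`, `Lk_hasDeriv`, mean value inequality on the segment), and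
`C2 c' ≤ (c1/2) c'^{3/4}` for `c'` small.  (`η0 ≥ 1/(4L)` or not does not matter.)
-/

set_option autoImplicit false

namespace Pool.Agent.H76.VKT

open Finset
open Pool.Agent.H91.EHA

/-- abstract 3-4-1 argument on `[u0, 1]` -/
private theorem Low_core (F : ℝ → ℝ) (u0 A D K : ℝ) (hu0 : 0 < u0) (hA : 1 ≤ A) (hD : 1 ≤ D) (hK : 1 ≤ K)
    (h1 : ∀ u, u0 ≤ u → u ≤ 1 → u ^ 3 ≤ A ^ 3 * K * F u ^ 4)
    (h2 : ∀ u u', u0 ≤ u → u ≤ u' → u' ≤ 1 → F u' ≤ F u + D * (u' - u))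
    (h0 : ∀ u, u0 ≤ u → u ≤ 1 → 0 ≤ F u) (u : ℝ) (hu : u0 ≤ u) (hu1 : u ≤ 1) :
    1 / (32 * D ^ 3 * A ^ 3 * K) ≤ F u := by
  by_contra hcon
  push Not at hcon
  have hA3 : (1:ℝ) ≤ A ^ 3 := one_le_pow₀ hA
  have hD3 : (1:ℝ) ≤ D ^ 3 := one_le_pow₀ hD
  have hD4 : (1:ℝ) ≤ D ^ 4 := one_le_pow₀ hD
  have hAK : (1:ℝ) ≤ A ^ 3 * K := by nlinarith
  set P : ℝ := A ^ 3 * K with hP
  have hP0 : 0 < P := by linarith
  have hDp : 0 < D := by linarith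
  set η : ℝ := 1 / (32 * D ^ 4 * P) with hη
  have hη0 : 0 < η := by positivity
  have hη1 : η ≤ 1 / 32 := by
    rw [hη]
    apply one_div_le_one_div_of_le (by norm_num)
    nlinarith [mul_le_mul hD4 hAK (by norm_num) (by positivity)]
  have hm : 1 / (32 * D ^ 3 * A ^ 3 * K) = D * η := by
    rw [hη, hP]; field_simp
  rw [hm] at hcon
  have hPη : 32 * D ^ 4 * P * η = 1 := by
    rw [hη]; field_simp
  have hF0 := h0 u hu hu1
  rcases le_or_gt η u with hc | hc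
  · have h := h1 u hu hu1
    have h4 : F u ^ 4 ≤ (D * η) ^ 4 := pow_le_pow_left₀ hF0 hcon.le 4
    have h3 : η ^ 3 ≤ u ^ 3 := pow_le_pow_left₀ hη0.le hc 3
    have h5 : η ^ 3 ≤ P * (D * η) ^ 4 := by
      calc η ^ 3 ≤ u ^ 3 := h3
        _ ≤ P * F u ^ 4 := h
        _ ≤ P * (D * η) ^ 4 := mul_le_mul_of_nonneg_left h4 hP0.le
    have h6 : P * (D * η) ^ 4 = η ^ 3 * (D ^ 4 * P * η) := by ring
    have h7 : D ^ 4 * P * η = 1 / 32 := by linarith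
    rw [h6, h7] at h5
    have : 0 < η ^ 3 := by positivity
    linarith
  · have h := h1 η (by linarith) (by linarith)
    have hl := h2 u η hu hc.le (by linarith)
    have hl2 : F η ≤ 2 * (D * η) := by
      have : D * (η - u) ≤ D * η := mul_le_mul_of_nonneg_left (by linarith) hDp.le
      linarith
    have h4 : F η ^ 4 ≤ (2 * (D * η)) ^ 4 :=
      pow_le_pow_left₀ (h0 _ (by linarith) (by linarith)) hl2 4
    have h5 : η ^ 3 ≤ P * (2 * (D * η)) ^ 4 := by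
      calc η ^ 3 ≤ P * F η ^ 4 := h
        _ ≤ _ := mul_le_mul_of_nonneg_left h4 hP0.le
    have h6 : P * (2 * (D * η)) ^ 4 = η ^ 3 * (16 * (D ^ 4 * P * η)) := by ring
    have h7 : D ^ 4 * P * η = 1 / 32 := by linarith
    rw [h6, h7] at h5
    have : 0 < η ^ 3 := by positivity
    linarith

private theorem Low_Lk0 (q : ℕ) (χ : DirichletCharacter ℂ q) (s : ℂ) :
    Lk q χ 0 s = LSeries (fun n : ℕ => χ (n : ZMod q)) s := by
  unfold Lk; simp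

private theorem Low_341 (q : ℕ) (χ : DirichletCharacter ℂ q) (σ t Z : ℝ) (h1 : 1 < σ)
    (hZ : ‖Lk q 1 0 ((σ : ℂ))‖ ≤ Z) :
    1 ≤ Z ^ 3 * ‖Lk q (χ ^ 2) 0 ⟨σ, 2 * t⟩‖ * ‖Lk q χ 0 ⟨σ, t⟩‖ ^ 4 := by
  have hx : 0 < σ - 1 := by linarith
  have h := DirichletCharacter.norm_LSeries_product_ge_one χ hx t
  have e1 : (1 + ((σ - 1 : ℝ) : ℂ)) = (σ : ℂ) := by push_cast; ring
  have e2 : (σ : ℂ) + Complex.I * t = ⟨σ, t⟩ := by
    apply Complex.ext <;> simp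
  have e3 : (σ : ℂ) + 2 * Complex.I * t = ⟨σ, 2 * t⟩ := by
    apply Complex.ext <;> simp
  rw [e1, e2, e3] at h
  rw [norm_mul, norm_mul, norm_pow, norm_pow] at h
  rw [Low_Lk0 q χ, Low_Lk0 q (χ ^ 2)]
  rw [Low_Lk0 q 1] at hZ
  have hb3 := pow_le_pow_left₀ (norm_nonneg _) hZ 3
  set a := ‖LSeries (fun n : ℕ => (1 : DirichletCharacter ℂ q) (n : ZMod q)) (σ : ℂ)‖
  set b := ‖LSeries (fun n : ℕ => χ (n : ZMod q)) ⟨σ, t⟩‖
  set c := ‖LSeries (fun n : ℕ => (χ ^ 2) (n : ZMod q)) ⟨σ, 2 * t⟩‖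
  have hc : 0 ≤ c := norm_nonneg _
  have hb0 : 0 ≤ b ^ 4 := by positivity
  calc (1:ℝ) ≤ a ^ 3 * b ^ 4 * c := h
    _ ≤ Z ^ 3 * b ^ 4 * c := by gcongr
    _ = _ := by ring

private theorem Low_lip (q : ℕ) (χ : DirichletCharacter ℂ q) (S : Set ℂ) (hS : Convex ℝ S)
    (h1 : ∀ w ∈ S, 1 < w.re) (D : ℝ) (hD : ∀ w ∈ S, ‖Lk q χ 1 w‖ ≤ D) (a b : ℂ) (ha : a ∈ S)
    (hb : b ∈ S) : ‖Lk q χ 0 b - Lk q χ 0 a‖ ≤ D * ‖b - a‖ := by
  refine Convex.norm_image_sub_le_of_norm_hasDerivWithin_le (f' := fun w => -(Lk q χ (0 + 1) w))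
    (fun w hw => (Lk_hasDeriv q χ 0 w (h1 w hw)).hasDerivWithinAt) (fun w hw => ?_) hS ha hb
  rw [norm_neg]
  exact hD w hw

/-- the Lipschitz bound on a horizontal segment -/
private theorem Low_seg (q : ℕ) (χ : DirichletCharacter ℂ q) (t D σ0 : ℝ) (hσ0 : 1 < σ0)
    (hD : ∀ σ : ℝ, σ0 ≤ σ → σ ≤ 2 → ‖Lk q χ 1 ⟨σ, t⟩‖ ≤ D) (σ σ' : ℝ) (h1 : σ0 ≤ σ) (hle : σ ≤ σ')
    (h2 : σ' ≤ 2) : ‖Lk q χ 0 ⟨σ', t⟩‖ ≤ ‖Lk q χ 0 ⟨σ, t⟩‖ + D * (σ' - σ) := by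
  set S : Set ℂ := {w | σ0 ≤ w.re ∧ w.re ≤ 2 ∧ w.im = t} with hSdef
  have hS : Convex ℝ S := by
    have e : S = {w | σ0 ≤ w.re} ∩ ({w | w.re ≤ 2} ∩ {w | w.im = t}) := by
      ext w; simp [hSdef]
    rw [e]
    refine Convex.inter (convex_halfSpace_re_ge σ0) (Convex.inter (convex_halfSpace_re_le 2) ?_)
    have e2 : {w : ℂ | w.im = t} = {w | w.im ≤ t} ∩ {w | t ≤ w.im} := by
      ext w; simp [le_antisymm_iff]
    rw [e2]
    exact Convex.inter (convex_halfSpace_im_le t) (convex_halfSpace_im_ge t)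
  have hb : ∀ w ∈ S, ‖Lk q χ 1 w‖ ≤ D := by
    rintro ⟨a, b⟩ ⟨h1, h2, h3⟩
    simp only at h1 h2 h3
    subst h3
    exact hD a h1 h2
  have := Low_lip q χ S hS (fun w hw => lt_of_lt_of_le hσ0 hw.1) D hb ⟨σ, t⟩ ⟨σ', t⟩ ⟨h1, by simp; linarith, rfl⟩
    ⟨by simp; linarith, h2, rfl⟩
  have e : ‖(⟨σ', t⟩ : ℂ) - ⟨σ, t⟩‖ = σ' - σ := by
    have : (⟨σ', t⟩ : ℂ) - ⟨σ, t⟩ = ((σ' - σ : ℝ) : ℂ) := by
      apply Complex.ext <;> simp
    rw [this, Complex.norm_real]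
    exact abs_of_nonneg (by linarith)
  rw [e] at this
  have h4 := norm_sub_norm_le (Lk q χ 0 ⟨σ', t⟩) (Lk q χ 0 ⟨σ, t⟩)
  linarith

/-- the scaled horizontal argument -/
private theorem Low_hor (q : ℕ) (χ : DirichletCharacter ℂ q) (t lam C D K η0 : ℝ) (hlam : 1 ≤ lam)
    (hη0 : 0 < η0) (hC : 1 ≤ C) (hD1 : 1 ≤ D) (hK1 : 1 ≤ K)
    (hZ : ∀ σ : ℝ, 1 < σ → σ ≤ 2 → ‖Lk q 1 0 ((σ : ℂ))‖ ≤ C * (1 + 1 / ((σ - 1) * lam)))
    (hD : ∀ σ : ℝ, 1 + η0 ≤ σ → σ ≤ 2 → ‖Lk q χ 1 ⟨σ, t⟩‖ ≤ lam * D)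
    (hK : ∀ σ : ℝ, 1 + η0 ≤ σ → σ ≤ 2 → ‖Lk q (χ ^ 2) 0 ⟨σ, 2 * t⟩‖ ≤ K)
    (σ : ℝ) (h1 : 1 + η0 ≤ σ) (h2 : σ ≤ 2) :
    1 / (32 * D ^ 3 * (2 * C) ^ 3 * K) ≤ ‖Lk q χ 0 ⟨σ, t⟩‖ := by
  have hlam0 : 0 < lam := by linarith
  rcases le_or_gt ((σ - 1) * lam) 1 with hc | hc
  · -- small
    have hu : ∀ u : ℝ, η0 * lam ≤ u → u ≤ 1 → 1 + η0 ≤ 1 + u / lam ∧ 1 + u / lam ≤ 2 := by
      intro u hu1 hu2
      have a1 : η0 ≤ u / lam := by rwa [le_div_iff₀ hlam0]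
      have a2 : u / lam ≤ 1 := by
        rw [div_le_one hlam0]; linarith
      exact ⟨by linarith, by linarith⟩
    have key := Low_core (fun u => ‖Lk q χ 0 ⟨1 + u / lam, t⟩‖) (η0 * lam) (2 * C) D K (by positivity)
      (by linarith) hD1 hK1 ?_ ?_ (fun _ _ _ => norm_nonneg _) ((σ - 1) * lam) ?_ hc
    · have e : 1 + (σ - 1) * lam / lam = σ := by
        field_simp
        ring
      simpa only [e] using key
    · intro u hu1 hu2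
      obtain ⟨b1, b2⟩ := hu u hu1 hu2
      have hu0 : 0 < u := lt_of_lt_of_le (by positivity) hu1
      have hσ1 : 1 < 1 + u / lam := by
        have : 0 < u / lam := by positivity
        linarith
      have hz := hZ (1 + u / lam) hσ1 b2
      have hz2 : ‖Lk q 1 0 (((1 + u / lam : ℝ) : ℂ))‖ ≤ 2 * C / u := by
        refine hz.trans ?_
        have e : (1 + u / lam - 1) * lam = u := by
          field_simp
          ring
        rw [e]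
        have h3 : (1:ℝ) ≤ 1 / u := by rw [le_div_iff₀ hu0]; linarith
        have h4 : C * (1 + 1 / u) ≤ C * (1 / u + 1 / u) :=
          mul_le_mul_of_nonneg_left (by linarith) (by linarith)
        refine h4.trans (le_of_eq ?_)
        ring
      have h := Low_341 q χ (1 + u / lam) t (2 * C / u) hσ1 hz2
      have hk := hK (1 + u / lam) b1 b2
      have hF : 0 ≤ ‖Lk q χ 0 ⟨1 + u / lam, t⟩‖ ^ 4 := by positivity
      have hu3 : 0 < u ^ 3 := by positivity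
      have hC0 : 0 < 2 * C := by linarith
      calc u ^ 3 = u ^ 3 * 1 := by ring
        _ ≤ u ^ 3 * ((2 * C / u) ^ 3 * ‖Lk q (χ ^ 2) 0 ⟨1 + u / lam, 2 * t⟩‖ *
              ‖Lk q χ 0 ⟨1 + u / lam, t⟩‖ ^ 4) := mul_le_mul_of_nonneg_left h hu3.le
        _ ≤ u ^ 3 * ((2 * C / u) ^ 3 * K * ‖Lk q χ 0 ⟨1 + u / lam, t⟩‖ ^ 4) := by
              gcongr
        _ = (2 * C) ^ 3 * K * ‖Lk q χ 0 ⟨1 + u / lam, t⟩‖ ^ 4 := by
              field_simp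
    · intro u u' hu1 hle hu2
      obtain ⟨b1, _⟩ := hu u hu1 (hle.trans hu2)
      obtain ⟨_, b2⟩ := hu u' (hu1.trans hle) hu2
      have h := Low_seg q χ t (lam * D) (1 + η0) (by linarith) hD (1 + u / lam) (1 + u' / lam) b1
        (by gcongr) b2
      refine h.trans (le_of_eq ?_)
      field_simp
      ring
    · have : η0 ≤ σ - 1 := by linarith
      exact mul_le_mul_of_nonneg_right this hlam0.le
  · -- large
    have hσ1 : 1 < σ := by linarith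
    have hz := hZ σ hσ1 h2
    have hz2 : ‖Lk q 1 0 ((σ : ℂ))‖ ≤ 2 * C := by
      refine hz.trans ?_
      have h3 : 1 / ((σ - 1) * lam) ≤ 1 := by
        rw [div_le_one (by linarith)]; exact hc.le
      have h4 : C * (1 + 1 / ((σ - 1) * lam)) ≤ C * (1 + 1) :=
        mul_le_mul_of_nonneg_left (by linarith) (by linarith)
      linarith
    have h := Low_341 q χ σ t (2 * C) hσ1 hz2
    have hk := hK σ h1 h2
    set F := ‖Lk q χ 0 ⟨σ, t⟩‖ with hF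
    have hF0 : 0 ≤ F := norm_nonneg _
    have h5 : 1 ≤ (2 * C) ^ 3 * K * F ^ 4 := by
      refine h.trans ?_
      gcongr
    set P : ℝ := (2 * C) ^ 3 * K with hP
    have hP1 : 1 ≤ P := by
      have : (1:ℝ) ≤ (2 * C) ^ 3 := one_le_pow₀ (by linarith)
      nlinarith
    have hP0 : 0 < P := by linarith
    have h6 : 1 / (32 * D ^ 3 * (2 * C) ^ 3 * K) ≤ 1 / P := by
      apply one_div_le_one_div_of_le hP0
      have hD3 : (1:ℝ) ≤ D ^ 3 := one_le_pow₀ hD1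
      have : 32 * D ^ 3 * (2 * C) ^ 3 * K = 32 * D ^ 3 * P := by rw [hP]; ring
      rw [this]
      nlinarith
    refine h6.trans ?_
    by_contra hcon
    push Not at hcon
    have h7 : F ^ 4 ≤ (1 / P) ^ 4 := pow_le_pow_left₀ hF0 hcon.le 4
    have hP3 : 1 ≤ P ^ 3 := one_le_pow₀ hP1
    -- F < 1/P ≤ 1
    have hF1 : F < 1 := lt_of_lt_of_le hcon (by rw [div_le_one hP0]; exact hP1)
    have h8 : F ^ 4 ≤ F := by
      have : F ^ 3 ≤ 1 := pow_le_one₀ hF0 hF1.le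
      calc F ^ 4 = F ^ 3 * F := by ring
        _ ≤ 1 * F := mul_le_mul_of_nonneg_right this hF0
        _ = F := one_mul F
    have h9 : P * F < 1 := by
      have := mul_lt_mul_of_pos_left hcon hP0
      rwa [mul_one_div_cancel hP0.ne'] at this
    have h10 : P * F ^ 4 ≤ P * F := mul_le_mul_of_nonneg_left h8 hP0.le
    linarith

theorem lk_low [T0] (B : ℕ) : ∃ c : ℝ, 0 < c ∧ c ≤ 1 ∧ ∃ K' x0 : ℕ, ∀ x : ℕ, x0 ≤ x → ∀ (d : ℕ) (χ : DirichletCharacter ℂ d) (s : ℂ),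
    1 ≤ d → (d : ℝ) ≤ Real.log x ^ B → 1 + 1 / (4 * Real.log x) ≤ s.re → s.re ≤ 2 →
    Real.log x ^ K' ≤ |s.im| → |s.im| ≤ 3 * (x : ℝ) ^ (3 : ℕ) →
    c / LL x ^ 7 ≤ ‖Lk (qm x d) (ch x χ) 0 s‖ := by
  obtain ⟨C0, hC0, K0, x0, h0⟩ := lk_up 0 B
  obtain ⟨C1, hC1, K1, x1, h1⟩ := lk_up 1 B
  obtain ⟨Cz, hCz, xz, hz⟩ := zy_up
  obtain ⟨xe, he⟩ := yx_ev
  have hpos : 0 < 32 * C1 ^ 3 * (2 * Cz) ^ 3 * C0 := by positivity
  refine ⟨1 / (32 * C1 ^ 3 * (2 * Cz) ^ 3 * C0), by positivity, ?_, max K0 K1,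
    max (max x0 x1) (max xz xe), ?_⟩
  · rw [div_le_one hpos]
    have a1 : (1:ℝ) ≤ C1 ^ 3 := one_le_pow₀ hC1
    have a2 : (1:ℝ) ≤ (2 * Cz) ^ 3 := one_le_pow₀ (by linarith)
    have a3 : (1:ℝ) ≤ C1 ^ 3 * (2 * Cz) ^ 3 := by nlinarith
    have a4 : (1:ℝ) ≤ C1 ^ 3 * (2 * Cz) ^ 3 * C0 := by nlinarith
    nlinarith
  · intro x hx d χ s hd hdB hs1 hs2 ht1 ht2
    have hx0 : x0 ≤ x := le_trans (le_trans (le_max_left _ _) (le_max_left _ _)) hx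
    have hx1 : x1 ≤ x := le_trans (le_trans (le_max_right _ _) (le_max_left _ _)) hx
    have hxz : xz ≤ x := le_trans (le_trans (le_max_left _ _) (le_max_right _ _)) hx
    have hxe : xe ≤ x := le_trans (le_trans (le_max_right _ _) (le_max_right _ _)) hx
    obtain ⟨_, _, _, hLL, hL9, hL, _⟩ := he x hxe
    obtain ⟨σ, t⟩ := s
    simp only at hs1 hs2 ht1 ht2
    have hη0 : 0 < 1 / (4 * Real.log x) := by positivity
    have hLL0 : 0 < LL x := by linarith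
    have hp0 : Real.log x ^ K0 ≤ Real.log x ^ (max K0 K1) := pow_le_pow_right₀ hL (le_max_left _ _)
    have hp1 : Real.log x ^ K1 ≤ Real.log x ^ (max K0 K1) := pow_le_pow_right₀ hL (le_max_right _ _)
    have hx3 : (0:ℝ) ≤ (x:ℝ) ^ (3:ℕ) := by positivity
    have habs : |2 * t| = 2 * |t| := by rw [abs_mul]; norm_num
    have hD1 : 1 ≤ C1 * LL x ^ 2 := by
      have : (1:ℝ) ≤ LL x ^ 2 := one_le_pow₀ hLL
      nlinarith
    have hK1' : 1 ≤ C0 * LL x := by nlinarith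
    have key := Low_hor (qm x d) (ch x χ) t (L9 x) Cz (C1 * LL x ^ 2) (C0 * LL x)
      (1 / (4 * Real.log x)) hL9 hη0 hCz hD1 hK1'
      (fun σ' a1 a2 => by
        have := hz x hxz d (σ' : ℂ) hd (by simpa using a1) (by simpa using a2)
        simpa using this)
      (fun σ' a1 a2 => by
        have := h1 x hx1 d χ ⟨σ', t⟩ hd hdB a1 a2 (hp1.trans ht1) (by show |t| ≤ _; linarith)
        refine this.trans (le_of_eq ?_)
        ring)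
      (fun σ' a1 a2 => by
        rw [ch_sq]
        have := h0 x hx0 d (χ ^ 2) ⟨σ', 2 * t⟩ hd hdB a1 a2
          (by show _ ≤ |2 * t|; rw [habs]; have := hp0.trans ht1; linarith [abs_nonneg t])
          (by show |2 * t| ≤ _; rw [habs]; linarith)
        refine this.trans (le_of_eq ?_)
        ring)
      σ hs1 hs2
    refine le_trans (le_of_eq ?_) key
    field_simp

end Pool.Agent.H76.VKT
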