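import Pool.Agent.H76.VKT.SDef
import Pool.Agent.H76.VKT.Exp
import Pool.Agent.H35.W.KS1

/-!
# VKT (H97/VK of helper97 with the parameter `T0.t` in place of `9/10`, `t1` in place of `19/20`) PSum: partial sums of `χ(n) n^{it}` for all `v > y`

Proof.  Split `n ≤ v` into classes modulo `d`: `n = d m + r`, `0 ≤ r < d`, `log n = log d + log (m + r/d)`, `χ(n) = χ(r)`.  The terms with `m = 0` contribute at most `d`.
The others form `∑_{m ∈ Ioc 0 b} ee(t log(m + r/d))`, `b = (v - r)/d ≤ v`, up to a constant factor of modulus one.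
`v ≤ x`: `vk_exp (A + B + 2)` with `K = v` (`v ≥ Yx x + 1 > exp(L9 x)`): at most `v (100/|t| + L^{-A-B-2})` per class.
`v > x`: `H35.W.ks1 1` with its `x` equal to `v` and `K = v` (`|t| ≤ x^3 ≤ v^3`): at most `C v (1/|t| + v^{-δ})` per class.
Sum over `d ≤ L^B` classes; `K' = A + B + 2`; `d ≤ L^B ≤ v/L^{A+1}`.
-/

set_option autoImplicit false

namespace Pool.Agent.H76.VKT

open Finset
open Pool.Agent.H91.PK (ee)

private lemma psum_ee_norm (r : ℝ) : ‖ee r‖ = 1 := by
  have : (2 * Real.pi * r * Complex.I : ℂ) = ((2 * Real.pi * r : ℝ) : ℂ) * Complex.I := by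
    push_cast; ring
  rw [ee, this, Complex.norm_exp_ofReal_mul_I]

private lemma psum_ee_add (r s : ℝ) : ee (r + s) = ee r * ee s := by
  rw [ee, ee, ee, ← Complex.exp_add]
  congr 1
  push_cast
  ring

private lemma psum_per (ψ : ℕ → ℂ) (d : ℕ) (h : ∀ n, ψ (n + d) = ψ n) (l k : ℕ) :
    ψ (l + d * k) = ψ l := by
  induction k with
  | zero => simp
  | succ k ih => rw [mul_add, mul_one, ← add_assoc, h, ih]

/-- one residue class -/
private lemma psum_class (f : ℕ → ℂ) (hf : ∀ n, ‖f n‖ ≤ 1) (B : ℝ) (K' a b d l : ℕ) (hd : 1 ≤ d)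
    (hb : b / d ≤ K') (hB : ∀ a' b' : ℕ, b' ≤ K' → ‖∑ n ∈ Ioc a' b', f n‖ ≤ B) :
    ‖∑ k ∈ (range (b + 1)).filter (fun k => a < l + d * k ∧ l + d * k ≤ b), f k‖ ≤ 1 + B := by
  set T := (range (b + 1)).filter (fun k => a < l + d * k ∧ l + d * k ≤ b) with hT
  have e : T.erase 0 = Ioc ((a - l) / d) ((b - l) / d) := by
    ext k
    simp only [hT, mem_erase, mem_filter, mem_range, mem_Ioc]
    rw [Nat.div_lt_iff_lt_mul (by omega), Nat.le_div_iff_mul_le (by omega)]
    constructor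
    · rintro ⟨h0, h1, h2, h3⟩
      rw [mul_comm d k] at h2 h3
      have : 1 ≤ k * d := Nat.mul_pos (by omega) (by omega)
      omega
    · rintro ⟨h1, h2⟩
      have hk : k ≠ 0 := by rintro rfl; simp at h1
      have h3 : k ≤ k * d := Nat.le_mul_of_pos_right k (by omega)
      have : 1 ≤ k * d := Nat.mul_pos (by omega) (by omega)
      rw [mul_comm d k]
      omega
  have h1 : ‖∑ k ∈ T.erase 0, f k‖ ≤ B := by
    rw [e]
    exact hB _ _ ((Nat.div_le_div_right (Nat.sub_le _ _)).trans hb)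
  by_cases h0 : 0 ∈ T
  · rw [← add_sum_erase _ _ h0]
    exact (norm_add_le _ _).trans (add_le_add (hf 0) h1)
  · rw [erase_eq_of_notMem h0] at h1
    linarith

/-- all residue classes -/
private lemma psum_core (ψ : ℕ → ℂ) (d v : ℕ) (t B : ℝ) (hd : 1 ≤ d) (hper : ∀ n, ψ (n + d) = ψ n)
    (hψ : ∀ n, ‖ψ n‖ ≤ 1)
    (hB : ∀ (β : ℝ) (a' b' : ℕ), 0 ≤ β → β ≤ 1 → b' ≤ v →
      ‖∑ n ∈ Ioc a' b', ee (t * Real.log (n + β))‖ ≤ B) :
    ‖∑ n ∈ Icc 1 v, ψ n * ee (t * Real.log n)‖ ≤ d * (1 + B) := by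
  have hdr : (1 : ℝ) ≤ d := by exact_mod_cast hd
  have hd0 : (d : ℝ) ≠ 0 := by positivity
  have hcl : ∀ l ∈ range d, ‖∑ n ∈ (Ioc 0 v).filter (fun n => n % d = l),
      ψ n * ee (t * Real.log n)‖ ≤ 1 + B := by
    intro l hl
    have hl1 := mem_range.1 hl
    have e1 : (Ioc 0 v).filter (fun n => n % d = l)
        = ((range (v + 1)).filter (fun k => 0 < l + d * k ∧ l + d * k ≤ v)).image
          (fun k => l + d * k) := by
      ext n
      simp only [mem_filter, mem_Ioc, mem_image, mem_range]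
      constructor
      · rintro ⟨⟨h1, h2⟩, h3⟩
        have h4 : n % d + d * (n / d) = n := Nat.mod_add_div n d
        have h5 : n / d ≤ n := Nat.div_le_self n d
        refine ⟨n / d, ⟨by omega, ?_, ?_⟩, ?_⟩ <;> rw [← h3, h4] <;> assumption
      · rintro ⟨k, ⟨h1, h2, h3⟩, rfl⟩
        exact ⟨⟨h2, h3⟩, by rw [Nat.add_mul_mod_self_left, Nat.mod_eq_of_lt hl1]⟩
    have hinj : Set.InjOn (fun k => l + d * k)
        ((range (v + 1)).filter (fun k => 0 < l + d * k ∧ l + d * k ≤ v) : Finset ℕ) := by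
      intro u _ w _ huw
      have : d * u = d * w := by simpa using huw
      exact Nat.eq_of_mul_eq_mul_left (by omega) this
    rw [e1, sum_image hinj]
    have hβl0 : 0 ≤ (l : ℝ) / d := by positivity
    have hβl1 : (l : ℝ) / d ≤ 1 := by
      rw [div_le_one (by linarith)]
      exact_mod_cast hl1.le
    have e2 : ∑ k ∈ (range (v + 1)).filter (fun k => 0 < l + d * k ∧ l + d * k ≤ v),
        ψ (l + d * k) * ee (t * Real.log ((l + d * k : ℕ) : ℝ))
        = (ψ l * ee (t * Real.log d)) *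
          ∑ k ∈ (range (v + 1)).filter (fun k => 0 < l + d * k ∧ l + d * k ≤ v),
            ee (t * Real.log ((k : ℝ) + (l : ℝ) / d)) := by
      rw [mul_sum]
      apply sum_congr rfl
      intro k hk
      have hk1 := (mem_filter.1 hk).2.1
      have hpos : (0 : ℝ) < l + d * k := by
        have : 0 < l + d * k := by omega
        exact_mod_cast this
      have h1 : ((l + d * k : ℕ) : ℝ) = d * ((k : ℝ) + (l : ℝ) / d) := by
        push_cast
        field_simp
        ring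
      have h2 : 0 < (k : ℝ) + (l : ℝ) / d := by
        have h3 : (k : ℝ) + (l : ℝ) / d = (l + d * k) / d := by
          field_simp
          ring
        rw [h3]
        exact div_pos hpos (by linarith)
      rw [psum_per ψ d hper, h1, Real.log_mul hd0 h2.ne', mul_add, psum_ee_add]
      ring
    rw [e2, norm_mul, norm_mul, psum_ee_norm, mul_one]
    have h3 := psum_class (fun k => ee (t * Real.log ((k : ℝ) + (l : ℝ) / d)))
      (fun n => (psum_ee_norm _).le) B v 0 v d l hd (Nat.div_le_self v d)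
      (fun a' b' hb' => hB ((l : ℝ) / d) a' b' hβl0 hβl1 hb')
    calc ‖ψ l‖ * _ ≤ 1 * (1 + B) := mul_le_mul (hψ l) h3 (norm_nonneg _) zero_le_one
      _ = 1 + B := one_mul _
  have e0 : Icc 1 v = Ioc 0 v := by
    ext n; simp only [mem_Icc, mem_Ioc]; omega
  have e3 : ∑ n ∈ Ioc 0 v, ψ n * ee (t * Real.log n)
      = ∑ l ∈ range d, ∑ n ∈ (Ioc 0 v).filter (fun n => n % d = l),
        ψ n * ee (t * Real.log n) := by
    rw [sum_fiberwise_of_maps_to]
    intro n _
    exact mem_range.2 (Nat.mod_lt n (by omega))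
  rw [e0, e3]
  refine (norm_sum_le _ _).trans ((sum_le_sum hcl).trans ?_)
  rw [sum_const, card_range, nsmul_eq_mul]

private lemma psum_tendL : Filter.Tendsto (fun x : ℕ => Real.log x) Filter.atTop Filter.atTop :=
  Real.tendsto_log_atTop.comp tendsto_natCast_atTop_atTop

/-- powers of `log x` against `exp ((log x)^{9/10})` -/
private lemma psum_ev1 [T0] (N : ℕ) : ∀ᶠ x : ℕ in Filter.atTop,
    2 * Real.log x ^ N ≤ Real.exp (Real.log x ^ T0.t) := by
  have h1 : Filter.Tendsto (fun u : ℝ => u ^ T0.t) Filter.atTop Filter.atTop :=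
    tendsto_rpow_atTop (by have := T0.lo; linarith)
  have h2 := (Real.isLittleO_pow_exp_atTop (n := 2 * N)).comp_tendsto h1
  have h3 := (h2.bound (show (0 : ℝ) < 1 / 2 by norm_num))
  have h4 := psum_tendL.eventually h3
  filter_upwards [h4, psum_tendL.eventually_ge_atTop 1] with x hx hL
  simp only [Function.comp_def, Real.norm_eq_abs] at hx
  have hL0 : 0 ≤ Real.log x := by linarith
  rw [abs_of_nonneg (by positivity), abs_of_nonneg (by positivity)] at hx
  have h5 : Real.log x ^ N ≤ (Real.log x ^ T0.t) ^ (2 * N) := by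
    rw [← Real.rpow_natCast (Real.log x ^ T0.t), ← Real.rpow_mul hL0, ← Real.rpow_natCast]
    apply Real.rpow_le_rpow_of_exponent_le hL
    push_cast
    have : (0 : ℝ) ≤ N := Nat.cast_nonneg N
    have hlo := T0.lo
    nlinarith
  linarith

/-- powers of `log x` against powers of `x` -/
private lemma psum_ev2 (N : ℕ) (δ : ℝ) (hδ : 0 < δ) : ∀ᶠ x : ℕ in Filter.atTop,
    (x : ℝ) ^ (-δ) ≤ 1 / Real.log x ^ N := by
  have h1 : Filter.Tendsto (fun u : ℝ => δ * u) Filter.atTop Filter.atTop :=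
    Filter.tendsto_id.const_mul_atTop hδ
  have h2 := (Real.isLittleO_pow_exp_atTop (n := N)).comp_tendsto h1
  have h3 := (h2.bound (show (0 : ℝ) < δ ^ N by positivity))
  have h4 := psum_tendL.eventually h3
  filter_upwards [h4, psum_tendL.eventually_ge_atTop 1, Filter.eventually_ge_atTop 1] with x hx hL hx1
  simp only [Function.comp_def, Real.norm_eq_abs] at hx
  have hL0 : 0 < Real.log x := by linarith
  have hx0 : (0 : ℝ) < x := by exact_mod_cast hx1
  rw [abs_of_nonneg (by positivity), abs_of_nonneg (by positivity), mul_pow] at hx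
  have h5 : Real.log x ^ N ≤ Real.exp (δ * Real.log x) := le_of_mul_le_mul_left hx (by positivity)
  have h6 : (x : ℝ) ^ (-δ) = (Real.exp (δ * Real.log x))⁻¹ := by
    rw [← Real.exp_neg, Real.rpow_def_of_pos hx0]
    congr 1
    ring
  rw [h6, ← one_div]
  exact one_div_le_one_div_of_le (by positivity) h5

theorem psum [T0] (A B : ℕ) : ∃ K' x0 : ℕ, ∀ x : ℕ, x0 ≤ x → ∀ (d : ℕ) (χ : DirichletCharacter ℂ d) (t : ℝ) (v : ℕ),
    1 ≤ d → (d : ℝ) ≤ Real.log x ^ B → Real.log x ^ K' ≤ |t| → |t| ≤ (x : ℝ) ^ (3 : ℕ) → Yx x + 1 ≤ v →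
    ‖∑ n ∈ Icc 1 v, χ (n : ZMod d) * ee (t * Real.log n)‖ ≤ v / Real.log x ^ A := by
  obtain ⟨x1, hx1⟩ := vk_exp (A + B + 2)
  obtain ⟨δ, C, hδ, hδ1, hC, x2, hx2⟩ := Pool.Agent.H35.W.ks1 1 one_pos
  obtain ⟨x3, hx3⟩ := Filter.eventually_atTop.1 (psum_ev1 (A + B + 2))
  obtain ⟨x4, hx4⟩ := Filter.eventually_atTop.1 (psum_ev2 (A + B + 2) δ hδ)
  obtain ⟨x5, hx5⟩ := Filter.eventually_atTop.1 (psum_tendL.eventually_ge_atTop (4 * C + 202))
  refine ⟨A + B + 2, max (max (max x1 x2) (max x3 x4)) (max x5 1), ?_⟩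
  intro x hx d χ t v hd hdL ht1 ht2 hv
  have hxa : x1 ≤ x := (le_max_left _ _).trans ((le_max_left _ _).trans ((le_max_left _ _).trans hx))
  have hxb : x2 ≤ x := (le_max_right _ _).trans ((le_max_left _ _).trans ((le_max_left _ _).trans hx))
  have hxc : x3 ≤ x := (le_max_left _ _).trans ((le_max_right _ _).trans ((le_max_left _ _).trans hx))
  have hxd : x4 ≤ x := (le_max_right _ _).trans ((le_max_right _ _).trans ((le_max_left _ _).trans hx))
  have hxe : x5 ≤ x := (le_max_left _ _).trans ((le_max_right _ _).trans hx)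
  have hxf : 1 ≤ x := (le_max_right _ _).trans ((le_max_right _ _).trans hx)
  have h3 := hx3 x hxc
  have h4 := hx4 x hxd
  have hL := hx5 x hxe
  have hxr : (1 : ℝ) ≤ x := by exact_mod_cast hxf
  set L := Real.log x with hLdef
  have hL1 : (202 : ℝ) ≤ L := by linarith
  have hL0 : (0 : ℝ) < L := by linarith
  have hLp : ∀ n : ℕ, 0 < L ^ n := fun n => pow_pos hL0 n
  have hvy : Real.exp (L ^ T0.t) ≤ v := by
    have h5 : Real.exp (L9 x) < (Yx x : ℝ) + 1 := Nat.lt_floor_add_one _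
    have h6 : ((Yx x : ℝ) + 1) ≤ v := by exact_mod_cast hv
    exact h5.le.trans h6
  have hv0 : (0 : ℝ) < v := (Real.exp_pos _).trans_le hvy
  have ht0 : 1 ≤ |t| := (one_le_pow₀ (by linarith : (1 : ℝ) ≤ L)).trans ht1
  have htp : 0 < |t| := by linarith
  have hti : 1 / |t| ≤ 1 / L ^ (A + B + 2) := one_div_le_one_div_of_le (hLp _) ht1
  have key : ∀ (β : ℝ) (a' b' : ℕ), 0 ≤ β → β ≤ 1 → b' ≤ v →
      ‖∑ n ∈ Ioc a' b', ee (t * Real.log (n + β))‖ ≤ v * ((2 * C + 101) / L ^ (A + B + 2)) := by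
    intro β a' b' hβ0 hβ1 hb'
    rcases le_or_gt v x with hvx | hvx
    · refine (hx1 x hxa v a' b' β t hvy hvx hb' hβ0 hβ1 ht0 ht2).trans ?_
      apply mul_le_mul_of_nonneg_left _ hv0.le
      calc 100 / |t| + 1 / L ^ (A + B + 2) = 100 * (1 / |t|) + 1 / L ^ (A + B + 2) := by ring
        _ ≤ 100 * (1 / L ^ (A + B + 2)) + 1 / L ^ (A + B + 2) := by linarith
        _ = 101 / L ^ (A + B + 2) := by ring
        _ ≤ (2 * C + 101) / L ^ (A + B + 2) := by
          apply div_le_div_of_nonneg_right _ (hLp _).le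
          linarith
    · have hxv : (x : ℝ) ≤ v := by exact_mod_cast hvx.le
      have ht3 : |t| ≤ (v : ℝ) ^ (3 : ℕ) := ht2.trans (pow_le_pow_left₀ (by linarith) hxv 3)
      refine (hx2 v (hxb.trans hvx.le) v a' b' β t (by rw [Real.rpow_one]) le_rfl hb' hβ0 hβ1 ht0
        ht3).trans ?_
      have h7 : (v : ℝ) ^ (-δ) ≤ (x : ℝ) ^ (-δ) :=
        Real.rpow_le_rpow_of_nonpos (by linarith) hxv (by linarith)
      have h8 : 1 / |t| + (v : ℝ) ^ (-δ) ≤ 2 * (1 / L ^ (A + B + 2)) := by linarith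
      calc C * v * (1 / |t| + (v : ℝ) ^ (-δ)) ≤ C * v * (2 * (1 / L ^ (A + B + 2))) := by
            apply mul_le_mul_of_nonneg_left h8 (by positivity)
        _ = v * ((2 * C) / L ^ (A + B + 2)) := by ring
        _ ≤ v * ((2 * C + 101) / L ^ (A + B + 2)) := by
          apply mul_le_mul_of_nonneg_left _ hv0.le
          apply div_le_div_of_nonneg_right _ (hLp _).le
          linarith
  have hmain := psum_core (fun n => χ (n : ZMod d)) d v t _ hd (fun n => by simp)
    (fun n => DirichletCharacter.norm_le_one _ _) key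
  refine hmain.trans ?_
  have hd0 : (0 : ℝ) ≤ d := Nat.cast_nonneg _
  have hvL : 2 * L ^ (A + B + 2) ≤ v := h3.trans hvy
  have hC0 : 0 ≤ (2 * C + 101) / L ^ (A + B + 2) := div_nonneg (by linarith) (hLp _).le
  have h9 : (d : ℝ) * (1 + v * ((2 * C + 101) / L ^ (A + B + 2))) ≤
      L ^ B * (1 + v * ((2 * C + 101) / L ^ (A + B + 2))) := by
    apply mul_le_mul_of_nonneg_right hdL
    positivity
  refine h9.trans ?_
  rw [le_div_iff₀ (hLp _)]
  have e1 : L ^ (A + B + 2) = L ^ A * L ^ B * L ^ 2 := by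
    rw [pow_add, pow_add]
  have e2 : L ^ B * (1 + v * ((2 * C + 101) / L ^ (A + B + 2))) * L ^ A
      = L ^ A * L ^ B + v * ((2 * C + 101) / L ^ 2) := by
    rw [e1]
    have hA := (hLp A).ne'
    have hB := (hLp B).ne'
    field_simp
  rw [e2]
  have h10 : L ^ A * L ^ B ≤ v / 2 := by
    have h11 : (1 : ℝ) ≤ L ^ 2 := one_le_pow₀ (by linarith)
    have h12 : 0 ≤ L ^ A * L ^ B := by positivity
    rw [e1] at hvL
    nlinarith
  have h13 : (2 * C + 101) / L ^ 2 ≤ 1 / 2 := by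
    rw [div_le_iff₀ (hLp 2)]
    nlinarith
  nlinarith

end Pool.Agent.H76.VKT
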