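import Pool.Agent.H76.VKT.FkUp
import Pool.Agent.H97.VK.SmTwo
import Pool.Agent.H91.EHA.SwH
import Pool.Agent.H91.PK.CA

/-!
# VKT (H97/VK of helper97 with the parameter `T0.t` in place of `9/10`, `t1` in place of `19/20`) SmShW: sharp sums of `Λ(n) ψ(n) n^{it} (log n)^k`, `z ≥ exp(L^{19/20})`

The same proof as in SmSh with `H = (log 2z)^{k+1}` and `exp(L^{19/20}) ≤ z` in place of `x^{e0} ≤ z`.

Proof.  `a_n = Λ(n) (log n)^k ψ(n) ee(t log n)`, `ψ = ch x χ`; `LSeries a s = Fk q ψ k (s - 2πi t)` (termwise: `ee(t log n) = n^{2πi t}`).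
Fixed abscissa `β = 1 + 1/(4L)`, `T = π|t|`.  `|τ| ≤ T`: `|τ - 2πt| ∈ [π|t|, 3π|t|] ⊆ [L^{K'}, 3x^3]`, so `B1 = C L9^{k+1} LL^{20(k+1)}` (`fk_up`).
All `τ`: `B2 = ∑ Λ(n) (log n)^k n^{-β} ≤ C_k (4L)^{k+2}` (`(log n)^{k+1} ≤ (k+1)! (8L)^{k+1} n^{1/(8L)}`, `∑ n^{-1-1/(8L)} ≤ 1 + 8L`).  As `T ≥ L^{K'}`, `K' ≥ k + 2`:
`B1 + B2/T^2 ≤ C' L9^{k+1} LL^{20(k+1)}`.  For `N ≤ 2z ≤ 2x^2`: `N^β = N · N^{1/(4L)} ≤ 3 N`.  So `smooth_two` gives for `1 ≤ N ≤ 2z`:
`‖∑_{n≤N} a_n om(n/N)‖ ≤ B := C'' z L9^{k+1} LL^{20(k+1)}`.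
`smooth_to_sharp` with `y = v` (`2 ≤ v ≤ z`; `v ≤ 1`: `a_1 = 0`), `H = (3L)^{k+1}` (`‖a_n‖ ≤ (log n)^{k+1}`, `n ≤ 2x^2`), `P = 1`, `δ = L^{-κ}`, `κ ≥ 1`:
`‖∑_{n≤v} a_n‖ ≤ C (B (L^{3κ} + 3L) + (3L)^{k+1} (z L^{-κ} + 3L + L^{3κ}))`, and `L^{3κ} + 3L ≤ z L^{-κ}` because `z ≥ x^{e0}`.
-/

set_option autoImplicit false

namespace Pool.Agent.H76.VKT

open Finset
open Pool.Agent.H91.EHA
open Pool.Agent.H91.PK (ee)
open Pool.Agent.H97.VK (smooth_two)

variable [T0]

private noncomputable def smA (x k : ℕ) {d : ℕ} (χ : DirichletCharacter ℂ d) (t : ℝ) (n : ℕ) : ℂ :=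
  ((Lam n * Real.log n ^ k : ℝ) : ℂ) * ch x χ (n : ZMod (qm x d)) * ee (t * Real.log n)

omit [T0] in
private theorem smA_ee (t : ℝ) (n : ℕ) (hn : n ≠ 0) :
    ee (t * Real.log n) = (n : ℂ) ^ (2 * Real.pi * t * Complex.I : ℂ) := by
  have hn0 : (n : ℂ) ≠ 0 := by exact_mod_cast hn
  unfold ee
  rw [Complex.cpow_def_of_ne_zero hn0, ← Complex.natCast_log]
  congr 1
  push_cast
  ring

private theorem smA_term (x k : ℕ) {d : ℕ} (χ : DirichletCharacter ℂ d) (t : ℝ) (s : ℂ) (n : ℕ) :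
    LSeries.term (smA x k χ t) s n =
      LSeries.term (fun n => ((Lam n * Real.log n ^ k : ℝ) : ℂ) * ch x χ (n : ZMod (qm x d)))
        (s - 2 * Real.pi * t * Complex.I) n := by
  rcases Nat.eq_zero_or_pos n with rfl | hn
  · simp
  · have hn1 : n ≠ 0 := by omega
    have hn0 : (n : ℂ) ≠ 0 := by exact_mod_cast hn1
    rw [LSeries.term_of_ne_zero hn1, LSeries.term_of_ne_zero hn1, Complex.cpow_sub _ _ hn0]
    unfold smA
    rw [smA_ee t n hn1]
    have h1 : (n : ℂ) ^ s ≠ 0 := by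
      rw [Complex.cpow_def_of_ne_zero hn0]; exact Complex.exp_ne_zero _
    have h2 : (n : ℂ) ^ (2 * Real.pi * t * Complex.I : ℂ) ≠ 0 := by
      rw [Complex.cpow_def_of_ne_zero hn0]; exact Complex.exp_ne_zero _
    field_simp

private theorem smA_LSeries (x k : ℕ) {d : ℕ} (χ : DirichletCharacter ℂ d) (t : ℝ) (s : ℂ) :
    LSeries (smA x k χ t) s = Fk (qm x d) (ch x χ) k (s - 2 * Real.pi * t * Complex.I) := by
  unfold Fk LSeries
  exact tsum_congr fun n => smA_term x k χ t s n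

private theorem smA_summable (x k : ℕ) {d : ℕ} (χ : DirichletCharacter ℂ d) (t : ℝ) (s : ℂ)
    (hs : 1 < s.re) : LSeriesSummable (smA x k χ t) s := by
  have h := Fk_summable (qm x d) (ch x χ) k (s - 2 * Real.pi * t * Complex.I) (by
    have : (s - 2 * Real.pi * t * Complex.I).re = s.re := by simp
    rw [this]; exact hs)
  unfold LSeriesSummable at *
  refine h.congr fun n => ?_
  exact (smA_term x k χ t s n).symm

private theorem smA_norm (x k : ℕ) {d : ℕ} (χ : DirichletCharacter ℂ d) (t : ℝ) (n : ℕ) :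
    ‖smA x k χ t n‖ ≤ Real.log n ^ (k + 1) := by
  have hlog : 0 ≤ Real.log n := Real.log_natCast_nonneg n
  have hLam : Lam n ≤ Real.log n := ArithmeticFunction.vonMangoldt_le_log
  have hLam0 : 0 ≤ Lam n := ArithmeticFunction.vonMangoldt_nonneg
  unfold smA
  rw [norm_mul, norm_mul, Pool.Agent.H91.PK.LSa_norm_ee, mul_one, Complex.norm_real,
    Real.norm_eq_abs, abs_of_nonneg (mul_nonneg hLam0 (pow_nonneg hlog k))]
  calc Lam n * Real.log n ^ k * ‖ch x χ (n : ZMod (qm x d))‖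
      ≤ Lam n * Real.log n ^ k * 1 :=
        mul_le_mul_of_nonneg_left (ch_norm_le x χ _) (mul_nonneg hLam0 (pow_nonneg hlog k))
    _ ≤ Real.log n * Real.log n ^ k * 1 := by
        refine mul_le_mul_of_nonneg_right ?_ (by norm_num)
        exact mul_le_mul_of_nonneg_right hLam (pow_nonneg hlog k)
    _ = Real.log n ^ (k + 1) := by ring

omit [T0] in
/-- `(log n)^m ≤ m! (1/c)^m n^c` -/
private theorem sm_logpow (m n : ℕ) (hn : 1 ≤ n) (c : ℝ) (hc : 0 < c) :
    Real.log n ^ m ≤ (m.factorial : ℝ) * (1 / c) ^ m * (n : ℝ) ^ c := by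
  have hn0 : (0 : ℝ) < n := by exact_mod_cast hn
  have hlog : 0 ≤ Real.log n := Real.log_natCast_nonneg n
  have h1 : (c * Real.log n) ^ m / (m.factorial : ℝ) ≤ Real.exp (c * Real.log n) :=
    Real.pow_div_factorial_le_exp _ (by positivity) m
  have h2 : Real.exp (c * Real.log n) = (n : ℝ) ^ c := by
    rw [Real.rpow_def_of_pos hn0, mul_comm]
  rw [h2, div_le_iff₀ (by positivity)] at h1
  have h3 : Real.log n ^ m = (1 / c) ^ m * (c * Real.log n) ^ m := by
    rw [← mul_pow]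
    congr 1
    field_simp
  rw [h3]
  calc (1 / c) ^ m * (c * Real.log n) ^ m ≤ (1 / c) ^ m * ((n : ℝ) ^ c * (m.factorial : ℝ)) :=
        mul_le_mul_of_nonneg_left h1 (by positivity)
    _ = _ := by ring

private theorem sm_B2 (x k : ℕ) {d : ℕ} (χ : DirichletCharacter ℂ d) (t : ℝ) (L : ℝ) (hL : 1 ≤ L)
    (s : ℂ) (hs : s.re = 1 + 1 / (4 * L)) :
    ‖LSeries (smA x k χ t) s‖ ≤ ((k + 1).factorial : ℝ) * 9 ^ (k + 2) * L ^ (k + 2) := by
  set c : ℝ := 1 / (8 * L) with hc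
  have hc0 : 0 < c := by positivity
  set M : ℝ := ((k + 1).factorial : ℝ) * (1 / c) ^ (k + 1) with hM
  have hM0 : 0 ≤ M := by positivity
  set G : ℕ → ℝ := fun n => M * (1 / (n : ℝ) ^ (1 + c)) with hG
  have hGs : Summable G := (Real.summable_one_div_nat_rpow.mpr (by linarith)).mul_left M
  have hle : ∀ n, ‖LSeries.term (smA x k χ t) s n‖ ≤ G n := by
    intro n
    rw [LSeries.norm_term_eq]
    split_ifs with h0
    · simp only [hG]; positivity
    · have hn1 : 1 ≤ n := by omega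
      have hn0 : (0 : ℝ) < n := by exact_mod_cast hn1
      have hpow : (0 : ℝ) < (n : ℝ) ^ s.re := Real.rpow_pos_of_pos hn0 _
      rw [div_le_iff₀ hpow]
      calc ‖smA x k χ t n‖ ≤ Real.log n ^ (k + 1) := smA_norm x k χ t n
        _ ≤ M * (n : ℝ) ^ c := sm_logpow (k + 1) n hn1 c hc0
        _ = G n * (n : ℝ) ^ s.re := by
            simp only [hG]
            have e : (n : ℝ) ^ s.re = (n : ℝ) ^ (1 + c) * (n : ℝ) ^ c := by
              rw [← Real.rpow_add hn0]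
              congr 1
              rw [hs, hc]
              field_simp
              ring
            rw [e]
            have h3 : (n : ℝ) ^ (1 + c) ≠ 0 := (Real.rpow_pos_of_pos hn0 _).ne'
            field_simp
  have h1 : ‖LSeries (smA x k χ t) s‖ ≤ ∑' n, G n := by
    unfold LSeries
    exact tsum_of_norm_bounded hGs.hasSum hle
  have h2 : ∑' n, G n ≤ M * (1 + 1 / c) := by
    rw [hGs.tsum_eq_zero_add]
    have e0 : G 0 = 0 := by
      simp only [hG, Nat.cast_zero]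
      rw [Real.zero_rpow (by linarith)]
      simp
    rw [e0, zero_add]
    simp only [hG]
    rw [tsum_mul_left]
    refine mul_le_mul_of_nonneg_left ?_ hM0
    have := Pool.Agent.H91.PK.zeta_bound hc0
    push_cast
    exact this
  have e1 : 1 / c = 8 * L := by rw [hc]; field_simp
  calc ‖LSeries (smA x k χ t) s‖ ≤ M * (1 + 1 / c) := h1.trans h2
    _ = ((k + 1).factorial : ℝ) * ((8 * L) ^ (k + 1) * (1 + 8 * L)) := by
        rw [hM, e1]; ring
    _ ≤ ((k + 1).factorial : ℝ) * ((9 * L) ^ (k + 1) * (9 * L)) := by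
        refine mul_le_mul_of_nonneg_left ?_ (by positivity)
        refine mul_le_mul ?_ (by linarith) (by positivity) (by positivity)
        exact pow_le_pow_left₀ (by positivity) (by linarith) _
    _ = _ := by rw [← pow_succ, mul_pow]; ring

omit [T0] in
private theorem sm_ev (t1 : ℝ) (ht1 : 1 / 2 ≤ t1) (κ : ℕ) : ∃ x0 : ℕ, ∀ x : ℕ, x0 ≤ x →
    4 * Real.log x ^ (4 * κ) ≤ Real.exp (Real.log x ^ t1) ∧ 2 ≤ Real.log x ∧ 4 ≤ x := by
  have h1 : ∀ᶠ u : ℝ in Filter.atTop, 4 * u ^ (4 * κ) ≤ Real.exp (u ^ t1) := by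
    have h := (isLittleO_pow_exp_pos_mul_atTop (8 * κ) (show (0 : ℝ) < 1 by norm_num)).bound
      (show (0 : ℝ) < 1 / 4 by norm_num)
    have h' := (tendsto_rpow_atTop (show (0 : ℝ) < t1 by linarith)).eventually h
    filter_upwards [h', Filter.eventually_ge_atTop (1 : ℝ)] with u hu hu1
    have hp : 0 ≤ u ^ t1 := Real.rpow_nonneg (by linarith) _
    rw [Real.norm_of_nonneg (by positivity), Real.norm_of_nonneg (by positivity), one_mul] at hu
    have h2 : u ^ (4 * κ) ≤ (u ^ t1) ^ (8 * κ) := by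
      rw [← Real.rpow_natCast (u ^ t1), ← Real.rpow_mul (by linarith),
        ← Real.rpow_natCast u]
      refine Real.rpow_le_rpow_of_exponent_le hu1 ?_
      push_cast
      have : (0 : ℝ) ≤ κ := Nat.cast_nonneg _
      nlinarith
    linarith
  have h2 : ∀ᶠ x : ℝ in Filter.atTop, 2 ≤ Real.log x := Real.tendsto_log_atTop.eventually_ge_atTop 2
  have h3 := (tendsto_natCast_atTop_atTop (R := ℝ)).eventually
    ((Real.tendsto_log_atTop.eventually h1).and h2)
  obtain ⟨x0, hx0⟩ := Filter.eventually_atTop.mp h3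
  refine ⟨max x0 4, fun x hx => ?_⟩
  have := hx0 x (le_trans (le_max_left _ _) hx)
  exact ⟨this.1, this.2, le_trans (le_max_right _ _) hx⟩

theorem sm_sharp_w (t1 : ℝ) (ht1' : T0.t < t1) (k κ B : ℕ) (hκ : 1 ≤ κ) : ∃ C : ℝ, 1 ≤ C ∧ ∃ K' x0 : ℕ, ∀ x : ℕ, x0 ≤ x →
    ∀ (d : ℕ) (χ : DirichletCharacter ℂ d) (t : ℝ) (v z : ℕ), 1 ≤ d → (d : ℝ) ≤ Real.log x ^ B →
    Real.exp (Real.log x ^ t1) ≤ z → z ≤ x ^ 2 → v ≤ z → Real.log x ^ K' ≤ |t| → |t| ≤ (x : ℝ) ^ (2 : ℕ) →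
    ‖∑ n ∈ Icc 1 v, ((Lam n * Real.log n ^ k : ℝ) : ℂ) * ch x χ (n : ZMod (qm x d)) * ee (t * Real.log n)‖ ≤
      C * z * (L9 x ^ (k + 1) * LL x ^ (20 * (k + 1)) * Real.log x ^ (3 * κ) +
        Real.log (2 * z) ^ (k + 1) / Real.log x ^ κ) := by
  obtain ⟨C1, hC1, K1, x1, hfk⟩ := fk_up k B
  obtain ⟨C2, hC2, hsm⟩ := smooth_two
  obtain ⟨C3, hC3, hsh⟩ := smooth_to_sharp
  obtain ⟨x2, hyx⟩ := yx_ev
  obtain ⟨x3, hev⟩ := sm_ev t1 (by have := T0.lo; linarith) κ
  set C4 : ℝ := ((k + 1).factorial : ℝ) * 9 ^ (k + 2) with hC4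
  have hC40 : 0 ≤ C4 := by positivity
  refine ⟨C3 * (24 * C2 * (C1 + C4) + 2) + 1, by
    have : 0 ≤ C3 * (24 * C2 * (C1 + C4) + 2) := by positivity
    linarith, max K1 (k + 2), max x1 (max x2 x3), ?_⟩
  intro x hx d χ t v z hd hdB hxz hzx hvz hKt htx
  have hx1 : x1 ≤ x := le_trans (le_max_left _ _) hx
  have hx2 : x2 ≤ x := le_trans (le_trans (le_max_left _ _) (le_max_right _ _)) hx
  have hx3 : x3 ≤ x := le_trans (le_trans (le_max_right _ _) (le_max_right _ _)) hx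
  obtain ⟨-, -, -, hLL, hL9, -, -⟩ := hyx x hx2
  obtain ⟨hev1, hL2, hx4⟩ := hev x hx3
  set L : ℝ := Real.log x with hLdef
  have hL1 : 1 ≤ L := by linarith
  have hxr : (4 : ℝ) ≤ x := by exact_mod_cast hx4
  have hx0 : (0 : ℝ) < x := by linarith
  set W : ℝ := L9 x ^ (k + 1) * LL x ^ (20 * (k + 1)) with hW
  have hW1 : 1 ≤ W := by
    rw [hW]
    calc (1 : ℝ) = 1 * 1 := by ring
      _ ≤ _ := mul_le_mul (one_le_pow₀ hL9) (one_le_pow₀ hLL) (by norm_num) (by positivity)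
  have hz0 : (0 : ℝ) ≤ z := Nat.cast_nonneg _
  have hz1 : (1 : ℝ) ≤ z := by
    refine le_trans ?_ hxz
    exact Real.one_le_exp (Real.rpow_nonneg (by linarith) _)
  have hℓ0 : 0 ≤ Real.log (2 * z) := Real.log_nonneg (by linarith)
  set ℓ : ℝ := Real.log (2 * z) with hℓ
  have hRHS0 : 0 ≤ (z : ℝ) * (W * L ^ (3 * κ) + ℓ ^ (k + 1) / L ^ κ) := by positivity
  have hsum : ∑ n ∈ Icc 1 v, ((Lam n * Real.log n ^ k : ℝ) : ℂ) * ch x χ (n : ZMod (qm x d)) *
      ee (t * Real.log n) = ∑ n ∈ Icc 1 v, smA x k χ t n := rfl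
  rw [hsum]
  suffices hmain : ‖∑ n ∈ Icc 1 v, smA x k χ t n‖ ≤
      C3 * (24 * C2 * (C1 + C4) + 2) * (z * (W * L ^ (3 * κ) + ℓ ^ (k + 1) / L ^ κ)) by
    calc ‖∑ n ∈ Icc 1 v, smA x k χ t n‖ ≤ _ := hmain
      _ ≤ (C3 * (24 * C2 * (C1 + C4) + 2) + 1) *
          (z * (W * L ^ (3 * κ) + ℓ ^ (k + 1) / L ^ κ)) :=
        mul_le_mul_of_nonneg_right (by linarith) hRHS0
      _ = _ := by ring
  rcases Nat.lt_or_ge v 2 with hv | hv
  · have h0 : ∑ n ∈ Icc 1 v, smA x k χ t n = 0 := by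
      refine Finset.sum_eq_zero fun n hn => ?_
      rw [Finset.mem_Icc] at hn
      have hn1 : n = 1 := by omega
      subst hn1
      unfold smA Lam
      simp
    rw [h0, norm_zero]
    positivity
  -- main case
  have hpi : (3 : ℝ) < Real.pi := Real.pi_gt_three
  have hpi4 : Real.pi ≤ 4 := Real.pi_le_four
  set T : ℝ := Real.pi * |t| with hT
  have hKt1 : L ^ K1 ≤ |t| := (pow_le_pow_right₀ hL1 (le_max_left _ _)).trans hKt
  have hKt2 : L ^ (k + 2) ≤ |t| := (pow_le_pow_right₀ hL1 (le_max_right _ _)).trans hKt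
  have ht1 : 1 ≤ |t| := (one_le_pow₀ hL1).trans hKt1
  have htT : |t| ≤ T := by rw [hT]; nlinarith
  have hT1 : 1 ≤ T := ht1.trans htT
  set β : ℝ := 1 + 1 / (4 * L) with hβ
  have hβ1 : 1 < β := by rw [hβ]; have : 0 < 1 / (4 * L) := by positivity
                         linarith
  have hβ2 : β ≤ 2 := by
    rw [hβ]
    have : 1 / (4 * L) ≤ 1 := by
      rw [div_le_one (by positivity)]; linarith
    linarith
  have hsummable : LSeriesSummable (smA x k χ t) (β : ℂ) :=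
    smA_summable x k χ t _ (by simpa using hβ1)
  have hB1 : ∀ τ : ℝ, |τ| ≤ T → ‖LSeries (smA x k χ t) (β + τ * Complex.I)‖ ≤ C1 * W := by
    intro τ hτ
    rw [smA_LSeries]
    have hre : ((β : ℂ) + τ * Complex.I - 2 * Real.pi * t * Complex.I).re = β := by simp
    have him : ((β : ℂ) + τ * Complex.I - 2 * Real.pi * t * Complex.I).im = τ - 2 * Real.pi * t := by
      simp
    have habs2 : |2 * Real.pi * t| = 2 * T := by
      rw [hT, abs_mul, abs_of_pos (by positivity : (0 : ℝ) < 2 * Real.pi)]; ring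
    have hlow : T ≤ |τ - 2 * Real.pi * t| := by
      have := abs_sub_abs_le_abs_sub (2 * Real.pi * t) τ
      rw [habs2, abs_sub_comm] at this
      linarith
    have hup : |τ - 2 * Real.pi * t| ≤ 3 * T := by
      have := abs_sub τ (2 * Real.pi * t)
      rw [habs2] at this
      linarith
    have := hfk x hx1 d χ ((β : ℂ) + τ * Complex.I - 2 * Real.pi * t * Complex.I) hd hdB
      (by rw [hre]) (by rw [hre]; exact hβ2) (by rw [him]; linarith)
      (by
        rw [him]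
        refine hup.trans ?_
        rw [hT]
        have h5 : Real.pi * |t| ≤ (x : ℝ) * (x : ℝ) ^ 2 :=
          mul_le_mul (by linarith) htx (abs_nonneg _) (by linarith)
        calc 3 * (Real.pi * |t|) ≤ 3 * ((x : ℝ) * (x : ℝ) ^ 2) := by linarith
          _ = 3 * (x : ℝ) ^ (3 : ℕ) := by ring)
    rw [hW, ← mul_assoc]
    exact this
  have hB2 : ∀ τ : ℝ, ‖LSeries (smA x k χ t) (β + τ * Complex.I)‖ ≤ C4 * L ^ (k + 2) := by
    intro τ
    exact sm_B2 x k χ t L hL1 _ (by simp [hβ])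
  have hBB : C1 * W + C4 * L ^ (k + 2) / T ^ 2 ≤ (C1 + C4) * W := by
    have h1 : L ^ (k + 2) ≤ T ^ 2 := by
      calc L ^ (k + 2) ≤ T := hKt2.trans htT
        _ ≤ T ^ 2 := by nlinarith
    have h2 : C4 * L ^ (k + 2) / T ^ 2 ≤ C4 := by
      rw [div_le_iff₀ (by positivity)]
      exact mul_le_mul_of_nonneg_left h1 hC40
    have h3 : C4 ≤ C4 * W := by nlinarith
    nlinarith
  have hzx2 : (z : ℝ) ≤ (x : ℝ) ^ 2 := by exact_mod_cast hzx
  have hS : ∀ N : ℕ, 1 ≤ N → N ≤ 2 * v →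
      ‖∑ n ∈ Icc 1 N, smA x k χ t n * ((Pool.Agent.H91.PK.om ((n : ℝ) / N) : ℝ) : ℂ)‖ ≤
        6 * C2 * (C1 + C4) * z * W := by
    intro N hN1 hN2
    have h := hsm (smA x k χ t) β (C1 * W) (C4 * L ^ (k + 2)) T hβ1 hβ2 hsummable (by positivity)
      (by positivity) hT1 hB1 hB2 N hN1
    have hN0 : (0 : ℝ) < N := by exact_mod_cast hN1
    have hN2z : (N : ℝ) ≤ 2 * z := by
      have : N ≤ 2 * z := hN2.trans (by omega)
      exact_mod_cast this
    have hNx : (N : ℝ) ≤ (x : ℝ) ^ 3 := by nlinarith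
    have hNβ : (N : ℝ) ^ β ≤ 3 * N := by
      rw [hβ, Real.rpow_add hN0, Real.rpow_one]
      have h6 : (N : ℝ) ^ (1 / (4 * L)) ≤ 3 := by
        calc (N : ℝ) ^ (1 / (4 * L)) ≤ ((x : ℝ) ^ 3) ^ (1 / (4 * L)) :=
              Real.rpow_le_rpow hN0.le hNx (by positivity)
          _ = Real.exp (3 / 4) := by
              rw [Real.rpow_def_of_pos (by positivity), Real.log_pow, ← hLdef]
              congr 1
              have : L ≠ 0 := by positivity
              push_cast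
              field_simp
          _ ≤ Real.exp 1 := Real.exp_le_exp.mpr (by norm_num)
          _ ≤ 3 := by have := Real.exp_one_lt_d9; linarith
      nlinarith
    calc _ ≤ C2 * (N : ℝ) ^ β * (C1 * W + C4 * L ^ (k + 2) / T ^ 2) := h
      _ ≤ C2 * (3 * N) * ((C1 + C4) * W) := by
          refine mul_le_mul (mul_le_mul_of_nonneg_left hNβ (by linarith)) hBB (by positivity)
            (by positivity)
      _ ≤ C2 * (3 * (2 * z)) * ((C1 + C4) * W) := by
          refine mul_le_mul_of_nonneg_right ?_ (by positivity)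
          refine mul_le_mul_of_nonneg_left ?_ (by linarith)
          linarith
      _ = _ := by ring
  have hA : ∀ u w : ℕ, u ≤ w → w ≤ 2 * v → ∑ n ∈ Ioc u w, ‖smA x k χ t n‖ ≤
      ℓ ^ (k + 1) * ((w : ℝ) - u + 1) := by
    intro u w huw hw
    have h1 : ∑ n ∈ Ioc u w, ‖smA x k χ t n‖ ≤ ∑ _n ∈ Ioc u w, ℓ ^ (k + 1) := by
      refine Finset.sum_le_sum fun n hn => ?_
      rw [Finset.mem_Ioc] at hn
      refine (smA_norm x k χ t n).trans ?_
      refine pow_le_pow_left₀ (Real.log_natCast_nonneg n) ?_ _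
      have hn0 : (0 : ℝ) < n := by exact_mod_cast (by omega : 0 < n)
      have hn2z : (n : ℝ) ≤ 2 * z := by
        have : n ≤ 2 * z := by omega
        exact_mod_cast this
      exact Real.log_le_log hn0 hn2z
    refine h1.trans ?_
    rw [Finset.sum_const, Nat.card_Ioc, nsmul_eq_mul, Nat.cast_sub huw, mul_comm]
    refine mul_le_mul_of_nonneg_left (by linarith) (by positivity)
  have hLκ : 1 ≤ L ^ κ := one_le_pow₀ hL1
  have hLL2 : 2 ≤ L ^ κ := by
    calc (2 : ℝ) ≤ L := hL2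
      _ = L ^ 1 := (pow_one L).symm
      _ ≤ L ^ κ := pow_le_pow_right₀ hL1 hκ
  have hfin := hsh (smA x k χ t) (6 * C2 * (C1 + C4) * z * W) (ℓ ^ (k + 1)) 1 v (1 / L ^ κ)
    (by positivity) (by positivity) le_rfl hv (by positivity)
    (by rw [div_le_div_iff₀ (by positivity) (by norm_num)]; linarith) hS
    (fun u w huw hw => hA u w huw hw)
  have e3 : 1 / (1 / L ^ κ) ^ 3 = L ^ (3 * κ) := by
    rw [div_pow, one_pow, one_div_one_div, ← pow_mul, mul_comm]
  rw [e3] at hfin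
  have hlogv : Real.log v ≤ 3 * L := by
    have hv0 : (0 : ℝ) < v := by exact_mod_cast (by omega : 0 < v)
    have hvx : (v : ℝ) ≤ (x : ℝ) ^ 3 := by
      have : (v : ℝ) ≤ z := by exact_mod_cast hvz
      nlinarith
    calc Real.log v ≤ Real.log ((x : ℝ) ^ 3) := Real.log_le_log hv0 hvx
      _ = 3 * L := by rw [Real.log_pow]; push_cast; ring
  have hL3 : L ≤ L ^ (3 * κ) := by
    calc L = L ^ 1 := (pow_one L).symm
      _ ≤ L ^ (3 * κ) := pow_le_pow_right₀ hL1 (by omega)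
  have hzL : 4 * L ^ (3 * κ) ≤ z / L ^ κ := by
    rw [le_div_iff₀ (by positivity)]
    calc 4 * L ^ (3 * κ) * L ^ κ = 4 * L ^ (4 * κ) := by
          rw [mul_assoc, ← pow_add]; congr 2; ring
      _ ≤ Real.exp (L ^ t1) := hev1
      _ ≤ z := hxz
  have hvz' : (v : ℝ) ≤ z := by exact_mod_cast hvz
  have hb1 : L ^ (3 * κ) + Real.log v ≤ 4 * L ^ (3 * κ) := by linarith
  have hb2 : 1 / L ^ κ * v + Real.log v + 1 * L ^ (3 * κ) ≤ 2 * (z / L ^ κ) := by
    have : 1 / L ^ κ * v ≤ z / L ^ κ := by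
      rw [one_div, inv_mul_eq_div]
      exact div_le_div_of_nonneg_right hvz' (by positivity)
    linarith
  have e4 : 1 / L ^ κ * (v : ℝ) + Real.log v + 1 / (1 / L ^ κ) ^ 3 =
      1 / L ^ κ * v + Real.log v + 1 * L ^ (3 * κ) := by rw [e3, one_mul]
  refine hfin.trans ?_
  calc C3 * (6 * C2 * (C1 + C4) * z * W * (L ^ (3 * κ) + Real.log v) +
        ℓ ^ (k + 1) * (1 / L ^ κ * v + Real.log v + L ^ (3 * κ)))
      ≤ C3 * (6 * C2 * (C1 + C4) * z * W * (4 * L ^ (3 * κ)) +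
        ℓ ^ (k + 1) * (2 * (z / L ^ κ))) := by
        refine mul_le_mul_of_nonneg_left (add_le_add ?_ ?_) hC3.le
        · exact mul_le_mul_of_nonneg_left hb1 (by positivity)
        · refine mul_le_mul_of_nonneg_left ?_ (by positivity)
          rw [one_mul] at hb2
          exact hb2
    _ = C3 * (24 * C2 * (C1 + C4)) * (z * (W * L ^ (3 * κ))) +
        C3 * (2) * (z * (ℓ ^ (k + 1) / L ^ κ)) := by
        ring
    _ ≤ C3 * (24 * C2 * (C1 + C4) + 2) * (z * (W * L ^ (3 * κ))) +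
        C3 * (24 * C2 * (C1 + C4) + 2) * (z * (ℓ ^ (k + 1) / L ^ κ)) := by
        refine add_le_add ?_ ?_
        · refine mul_le_mul_of_nonneg_right ?_ (by positivity)
          refine mul_le_mul_of_nonneg_left ?_ hC3.le
          linarith
        · refine mul_le_mul_of_nonneg_right ?_ (by positivity)
          refine mul_le_mul_of_nonneg_left ?_ hC3.le
          have : (0 : ℝ) ≤ 24 * C2 * (C1 + C4) := by positivity
          linarith
    _ = _ := by ring

end Pool.Agent.H76.VKT
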