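import Pool.Agent.H76.VKT.BrunT
import Pool.Agent.H97.VK.TailA
import Pool.Agent.H97.VK.RCnt

/-!
# VKT (H97/VK of helper97 with the parameter `T0.t` in place of `9/10`, `t1` in place of `19/20`) Up: upper bounds for the sieved `L`-functions and their derivatives, and for the sieved zeta function

`lk_up`.  `s = σ + iτ`, `t = -τ/(2π)`: `n^{-s} = n^{-σ} ee(t log n)`.  `rtw (k+2) B` gives `D`; `N = ⌈exp(D LL L9)⌉₊`.
The series `Lk (qm x d) (ch x χ) k s` (summable, `Lk_summable`) is the limit of its partial sums; terms: `n = 1`: `≤ 1`; `1 < n ≤ y`: zero (`ch_apply`, `cop_gt`);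
`y < n ≤ N`: `≤ ∑_{rough} (log n)^k/n ≤ C (1+log N)(log N)^k/log y ≤ C' L9^k LL^{k+1}` (`rnear`, `log N ≤ D LL L9 + 1`, `log y ≥ L9/2`);
`n > N`: `tail_abel k` with `f n = ch(n) ee(t log n)`, `δ = L^{-k-2}`: `≤ C L^{-k-2} (4L)^{k+1} ≤ 1`.
`zy_up`: terms `n = 1`, then `rzeta`: `Lk (qm x d) 1 0 σ` is at most `1 + C/((σ-1) log y)`; a number coprime to `qm x d` is coprime to `y#`.
-/

set_option autoImplicit false

namespace Pool.Agent.H76.VKT

open Finset
open Pool.Agent.H91.EHA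
open Pool.Agent.H97.VK (tail_abel rnear rzeta)

private theorem Up_lseries (f : ℕ → ℂ) (s : ℂ) (hs : LSeriesSummable f s) (b : ℝ) (N0 : ℕ)
    (h : ∀ M : ℕ, N0 ≤ M → ‖∑ n ∈ Icc 1 M, LSeries.term f s n‖ ≤ b) : ‖LSeries f s‖ ≤ b := by
  have h1 : Filter.Tendsto (fun n : ℕ => ∑ i ∈ range n, LSeries.term f s i) Filter.atTop
      (nhds (LSeries f s)) := hs.hasSum.tendsto_sum_nat
  refine le_of_tendsto h1.norm ?_
  refine Filter.eventually_atTop.2 ⟨N0 + 1, fun M' hM' => ?_⟩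
  obtain ⟨M, rfl⟩ : ∃ M, M' = M + 1 := ⟨M' - 1, by omega⟩
  have e : Ico (0 + 1) (M + 1) = Icc 1 M := by
    ext n
    simp only [mem_Ico, mem_Icc]
    omega
  rw [Finset.range_eq_Ico, Finset.sum_eq_sum_Ico_succ_bot (Nat.succ_pos M), LSeries.term_zero,
    zero_add, e]
  exact h M (by omega)

private theorem Up_cpow (n : ℕ) (hn : 1 ≤ n) (s : ℂ) :
    ((n : ℂ) ^ s)⁻¹ = (((n : ℝ) ^ (-s.re) : ℝ) : ℂ) *
      Pool.Agent.H91.PK.ee (-s.im / (2 * Real.pi) * Real.log n) := by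
  have hn0 : (n : ℂ) ≠ 0 := by exact_mod_cast (show n ≠ 0 by omega)
  have hnr : (0 : ℝ) < n := by exact_mod_cast hn
  have hpi : (Real.pi : ℂ) ≠ 0 := by exact_mod_cast Real.pi_ne_zero
  rw [← Complex.cpow_neg, Complex.cpow_def_of_ne_zero hn0, Real.rpow_def_of_pos hnr,
    Complex.ofReal_exp, Pool.Agent.H91.PK.ee, ← Complex.exp_add, ← Complex.natCast_log]
  congr 1
  push_cast
  have h : s = (s.re : ℂ) + (s.im : ℂ) * Complex.I := (Complex.re_add_im s).symm
  field_simp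
  conv_lhs => rw [h]
  ring

private theorem Up_term (k n : ℕ) (hn : 1 ≤ n) (c s : ℂ) (f : ℕ → ℂ)
    (hf : f n = ((Real.log n : ℝ) : ℂ) ^ k * c) :
    LSeries.term f s n = (c * Pool.Agent.H91.PK.ee (-s.im / (2 * Real.pi) * Real.log n)) *
      ((Real.log n ^ k * (n : ℝ) ^ (-s.re) : ℝ) : ℂ) := by
  rw [LSeries.term_of_ne_zero (by omega), hf, div_eq_mul_inv, Up_cpow n hn s]
  push_cast
  ring

private theorem Up_rpow (n : ℕ) (hn : 1 ≤ n) (σ : ℝ) (hσ : 1 ≤ σ) :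
    (n : ℝ) ^ (-σ) ≤ 1 / (n : ℝ) := by
  have hn1 : (1 : ℝ) ≤ n := by exact_mod_cast hn
  have h : (n : ℝ) ^ (-σ) ≤ (n : ℝ) ^ (-1 : ℝ) := Real.rpow_le_rpow_of_exponent_le hn1 (by linarith)
  rw [Real.rpow_neg_one] at h
  rw [one_div]
  exact h

/-- a sum over rough numbers and `1` -/
private theorem Up_split (y N : ℕ) (hy : 2 ≤ y) (hyN : y ≤ N) (F : ℕ → ℝ) (h1 : F 1 ≤ 1)
    (h0 : ∀ n, 1 ≤ n → ¬ n.Coprime (primorial y) → F n = 0) :
    ∑ n ∈ Icc 1 N, F n ≤ 1 + ∑ n ∈ (Ioc y N).filter (fun n => n.Coprime (primorial y)), F n := by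
  have hd : Disjoint ({1} : Finset ℕ) ((Ioc y N).filter (fun n => n.Coprime (primorial y))) := by
    rw [disjoint_left]
    intro n hn1 hn2
    rw [mem_singleton] at hn1
    rw [mem_filter, mem_Ioc] at hn2
    omega
  have h2 : ∑ n ∈ Icc 1 N, F n =
      ∑ n ∈ ({1} : Finset ℕ) ∪ (Ioc y N).filter (fun n => n.Coprime (primorial y)), F n := by
    symm
    refine Finset.sum_subset ?_ ?_
    · intro n hn
      rw [mem_union, mem_singleton, mem_filter, mem_Ioc] at hn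
      rw [mem_Icc]
      omega
    · intro n hn hn2
      rw [mem_Icc] at hn
      rw [mem_union, mem_singleton, mem_filter, mem_Ioc] at hn2
      push Not at hn2
      refine h0 n hn.1 fun hc => ?_
      rcases cop_gt y n hy hc with h | h
      · exact hn2.1 h
      · exact hn2.2 ⟨h, hn.2⟩ hc
  rw [h2, Finset.sum_union hd, Finset.sum_singleton]
  linarith

theorem lk_up [T0] (k B : ℕ) : ∃ C : ℝ, 1 ≤ C ∧ ∃ K' x0 : ℕ, ∀ x : ℕ, x0 ≤ x → ∀ (d : ℕ) (χ : DirichletCharacter ℂ d) (s : ℂ),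
    1 ≤ d → (d : ℝ) ≤ Real.log x ^ B → 1 + 1 / (4 * Real.log x) ≤ s.re → s.re ≤ 2 →
    Real.log x ^ K' ≤ |s.im| → |s.im| ≤ 6 * (x : ℝ) ^ (3 : ℕ) →
    ‖Lk (qm x d) (ch x χ) k s‖ ≤ C * L9 x ^ k * LL x ^ (k + 1) := by
  obtain ⟨K0, D, x1, hx1⟩ := rtw (k + 2) B
  obtain ⟨C1, hC1, hr⟩ := rnear
  obtain ⟨C2, hC2, ht⟩ := tail_abel k
  obtain ⟨x2, hx2⟩ := yx_ev
  have ev3 : ∀ᶠ x : ℕ in Filter.atTop, (7 : ℝ) ≤ Real.log x :=
    (Real.tendsto_log_atTop.comp tendsto_natCast_atTop_atTop).eventually_ge_atTop 7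
  obtain ⟨x3, hx3⟩ := Filter.eventually_atTop.1 ev3
  refine ⟨1 + 2 * C1 * ((D : ℝ) + 3) ^ (k + 1) + C2 * 4 ^ (k + 1), ?_, K0 + 1,
    max x1 (max x2 x3), ?_⟩
  · have h1 : 0 ≤ 2 * C1 * ((D : ℝ) + 3) ^ (k + 1) := by positivity
    have h2 : 0 ≤ C2 * (4 : ℝ) ^ (k + 1) := by positivity
    linarith
  intro x hx d χ s hd hdB hs1 hs2 hτ1 hτ2
  have hxa : x1 ≤ x := (le_max_left _ _).trans hx
  have hxb : x2 ≤ x := (le_max_left _ _).trans ((le_max_right _ _).trans hx)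
  have hxc : x3 ≤ x := (le_max_right _ _).trans ((le_max_right _ _).trans hx)
  obtain ⟨hy3, hly1, hly2, hLL, hL9, hL1, hyx⟩ := hx2 x hxb
  have hL7 := hx3 x hxc
  set L := Real.log x with hLdef
  set y := Yx x with hydef
  set σ := s.re with hσdef
  have hL0 : 0 < L := by linarith
  have hσ1 : 1 < σ := by
    have : 0 < 1 / (4 * L) := by positivity
    linarith
  have hσ4 : 1 / (σ - 1) ≤ 4 * L := by
    rw [div_le_iff₀ (by linarith)]
    have h1 : 1 / (4 * L) ≤ σ - 1 := by linarith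
    rw [div_le_iff₀ (by positivity)] at h1
    linarith
  set t : ℝ := -s.im / (2 * Real.pi) with htdef
  have hpi3 := Real.pi_gt_three
  have hpi4 := Real.pi_lt_d2
  have hta : |t| = |s.im| / (2 * Real.pi) := by
    rw [htdef, abs_div, abs_neg, abs_of_pos (show (0 : ℝ) < 2 * Real.pi by positivity)]
  have ht1 : L ^ K0 ≤ |t| := by
    rw [hta, le_div_iff₀ (by positivity)]
    have h1 : L ^ (K0 + 1) ≤ |s.im| := hτ1
    rw [pow_succ] at h1
    have h2 : L ^ K0 * (2 * Real.pi) ≤ L ^ K0 * L :=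
      mul_le_mul_of_nonneg_left (by linarith) (by positivity)
    linarith
  have ht2 : |t| ≤ (x : ℝ) ^ (3 : ℕ) := by
    rw [hta, div_le_iff₀ (by positivity)]
    have h2 : (0 : ℝ) ≤ (x : ℝ) ^ (3 : ℕ) := by positivity
    nlinarith
  -- the cut-off
  set E : ℝ := ((D : ℝ) + 1) * (LL x * L9 x) with hEdef
  have hP1 : 1 ≤ LL x * L9 x := by nlinarith
  have hD0 : (0 : ℝ) ≤ D := Nat.cast_nonneg D
  have hE0 : 0 ≤ E := by positivity
  have hE9 : L9 x ≤ E := by
    have h1 : L9 x ≤ LL x * L9 x := by nlinarith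
    have h2 : 1 * (LL x * L9 x) ≤ ((D : ℝ) + 1) * (LL x * L9 x) :=
      mul_le_mul_of_nonneg_right (by linarith) (by linarith)
    linarith
  set N : ℕ := ⌈Real.exp E⌉₊ with hNdef
  have hNE : Real.exp E ≤ N := Nat.le_ceil _
  have hN1r : (1 : ℝ) ≤ N := (Real.one_le_exp hE0).trans hNE
  have hN1 : 1 ≤ N := by exact_mod_cast hN1r
  have hyN : y ≤ N := by
    have h1 : (y : ℝ) ≤ Real.exp (L9 x) := by
      rw [hydef]
      unfold Yx
      exact Nat.floor_le (Real.exp_pos _).le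
    have h2 : (y : ℝ) ≤ N := h1.trans ((Real.exp_le_exp.2 hE9).trans hNE)
    exact_mod_cast h2
  have hlogN : Real.log N ≤ E + 1 := by
    have h1 : (N : ℝ) < Real.exp E + 1 := Nat.ceil_lt_add_one (Real.exp_pos _).le
    have h2 : (N : ℝ) ≤ Real.exp (E + 1) := by
      rw [Real.exp_add]
      have h3 : (2 : ℝ) ≤ Real.exp 1 := by
        have := Real.add_one_le_exp (1 : ℝ)
        linarith
      have h4 : (1 : ℝ) ≤ Real.exp E := Real.one_le_exp hE0
      nlinarith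
    calc Real.log N ≤ Real.log (Real.exp (E + 1)) := Real.log_le_log (by linarith) h2
      _ = E + 1 := Real.log_exp _
  have hlogN0 : 0 ≤ Real.log N := Real.log_nonneg hN1r
  set f : ℕ → ℂ := fun n => ((Real.log n : ℝ) : ℂ) ^ k * ch x χ (n : ZMod (qm x d)) with hfdef
  have hterm : ∀ n : ℕ, 1 ≤ n → LSeries.term f s n =
      (ch x χ (n : ZMod (qm x d)) * Pool.Agent.H91.PK.ee (t * Real.log n)) *
        ((Real.log n ^ k * (n : ℝ) ^ (-σ) : ℝ) : ℂ) := fun n hn => Up_term k n hn _ s f rfl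
  unfold Lk
  refine Up_lseries f s (Lk_summable _ _ k s hσ1) _ N fun M hM => ?_
  -- first part
  have hsplit : ∑ n ∈ Icc 1 M, LSeries.term f s n =
      ∑ n ∈ Icc 1 N, LSeries.term f s n + ∑ n ∈ Ioc N M, LSeries.term f s n := by
    rw [← Finset.sum_union]
    · congr 1
      ext n
      simp only [mem_union, mem_Icc, mem_Ioc]
      omega
    · rw [disjoint_left]
      intro n h1 h2
      rw [mem_Icc] at h1
      rw [mem_Ioc] at h2
      omega
  rw [hsplit]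
  have hpart1 : ‖∑ n ∈ Icc 1 N, LSeries.term f s n‖ ≤
      1 + 2 * C1 * ((D : ℝ) + 3) ^ (k + 1) * (L9 x ^ k * LL x ^ (k + 1)) := by
    refine (norm_sum_le _ _).trans ?_
    have hn1 : ∀ n : ℕ, 1 ≤ n → ‖LSeries.term f s n‖ =
        ‖ch x χ (n : ZMod (qm x d))‖ * (Real.log n ^ k * (n : ℝ) ^ (-σ)) := by
      intro n hn
      have h1 : (0 : ℝ) ≤ Real.log n := Real.log_natCast_nonneg n
      have h2 : (0 : ℝ) ≤ (n : ℝ) ^ (-σ) := Real.rpow_nonneg (Nat.cast_nonneg _) _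
      rw [hterm n hn, norm_mul, norm_mul, Pool.Agent.H91.PK.LSa_norm_ee, mul_one, Complex.norm_real,
        Real.norm_eq_abs, abs_of_nonneg (by positivity)]
    have hle : ∀ n : ℕ, 1 ≤ n → ‖LSeries.term f s n‖ ≤ Real.log n ^ k / (n : ℝ) := by
      intro n hn
      have h1 : (0 : ℝ) ≤ Real.log n := Real.log_natCast_nonneg n
      have h2 : (0 : ℝ) ≤ (n : ℝ) ^ (-σ) := Real.rpow_nonneg (Nat.cast_nonneg _) _
      rw [hn1 n hn]
      calc ‖ch x χ (n : ZMod (qm x d))‖ * (Real.log n ^ k * (n : ℝ) ^ (-σ))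
          ≤ 1 * (Real.log n ^ k * (n : ℝ) ^ (-σ)) :=
            mul_le_mul_of_nonneg_right (ch_norm_le x χ _) (by positivity)
        _ ≤ Real.log n ^ k * (1 / (n : ℝ)) := by
            rw [one_mul]
            exact mul_le_mul_of_nonneg_left (Up_rpow n hn σ hσ1.le) (by positivity)
        _ = Real.log n ^ k / (n : ℝ) := by ring
    refine (Up_split y N (by omega) hyN _ ?_ ?_).trans ?_
    · refine (hle 1 le_rfl).trans ?_
      rw [Nat.cast_one, Real.log_one, div_one]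
      exact pow_le_one₀ le_rfl zero_le_one
    · intro n hn hc
      rw [hn1 n hn, ch_apply x hd χ n, if_neg hc, norm_zero, zero_mul]
    · have h3 : ∑ n ∈ (Ioc y N).filter (fun n => n.Coprime (primorial y)),
          ‖LSeries.term f s n‖ ≤
          ∑ n ∈ (Ioc y N).filter (fun n => n.Coprime (primorial y)), Real.log n ^ k / (n : ℝ) := by
        refine Finset.sum_le_sum fun n hn => ?_
        rw [mem_filter, mem_Ioc] at hn
        exact hle n (by omega)
      have h4 := hr k y N (by omega) hyN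
      have h5 : C1 * (1 + Real.log N) * Real.log N ^ k / Real.log y ≤
          2 * C1 * ((D : ℝ) + 3) ^ (k + 1) * (L9 x ^ k * LL x ^ (k + 1)) := by
        have h6 : 1 + Real.log N ≤ ((D : ℝ) + 3) * (LL x * L9 x) := by
          rw [hEdef] at hlogN
          nlinarith
        have h7 : Real.log N ≤ ((D : ℝ) + 3) * (LL x * L9 x) := by linarith
        have hly0 : 0 < Real.log y := by linarith
        rw [div_le_iff₀ hly0]
        calc C1 * (1 + Real.log N) * Real.log N ^ k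
            ≤ C1 * (((D : ℝ) + 3) * (LL x * L9 x)) * (((D : ℝ) + 3) * (LL x * L9 x)) ^ k := by
              gcongr
          _ = 2 * C1 * ((D : ℝ) + 3) ^ (k + 1) * (L9 x ^ k * LL x ^ (k + 1)) * (L9 x / 2) := by
              rw [mul_pow, mul_pow]
              ring
          _ ≤ 2 * C1 * ((D : ℝ) + 3) ^ (k + 1) * (L9 x ^ k * LL x ^ (k + 1)) * Real.log y := by
              refine mul_le_mul_of_nonneg_left hly2 ?_
              positivity
      linarith
  have hpart2 : ‖∑ n ∈ Ioc N M, LSeries.term f s n‖ ≤ C2 * 4 ^ (k + 1) := by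
    have h1 : ∑ n ∈ Ioc N M, LSeries.term f s n = ∑ n ∈ Ioc N M,
        (ch x χ (n : ZMod (qm x d)) * Pool.Agent.H91.PK.ee (t * Real.log n)) *
        ((Real.log n ^ k * (n : ℝ) ^ (-σ) : ℝ) : ℂ) := by
      refine Finset.sum_congr rfl fun n hn => ?_
      rw [mem_Ioc] at hn
      exact hterm n (by omega)
    rw [h1]
    refine (ht (fun n => ch x χ (n : ZMod (qm x d)) * Pool.Agent.H91.PK.ee (t * Real.log n))
      (1 / L ^ (k + 2)) σ N (by positivity) hσ1 hs2 hN1 ?_ M hM).trans ?_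
    · intro u hu
      have h2 : (D : ℝ) * (LL x * L9 x) ≤ Real.log u := by
        have h3 : Real.exp E ≤ u := hNE.trans (by exact_mod_cast hu)
        have h4 : E ≤ Real.log u := by
          rw [← Real.log_exp E]
          exact Real.log_le_log (Real.exp_pos _) h3
        rw [hEdef] at h4
        nlinarith
      have h5 := hx1 x hxa d χ t u hd hdB ht1 ht2 h2
      rw [one_div, mul_comm, ← div_eq_mul_inv]
      exact h5
    · calc C2 * (1 / L ^ (k + 2)) * (1 / (σ - 1)) ^ (k + 1)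
          ≤ C2 * (1 / L ^ (k + 2)) * (4 * L) ^ (k + 1) := by
            have h6 : 0 ≤ 1 / (σ - 1) := by
              have : 0 < σ - 1 := by linarith
              positivity
            gcongr
        _ = C2 * 4 ^ (k + 1) * (1 / L) := by
            rw [mul_pow, show k + 2 = (k + 1) + 1 by ring, pow_succ L (k + 1)]
            field_simp
        _ ≤ C2 * 4 ^ (k + 1) * 1 := by
            refine mul_le_mul_of_nonneg_left ?_ (by positivity)
            rw [div_le_one hL0]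
            linarith
        _ = _ := mul_one _
  have hX1 : 1 ≤ L9 x ^ k * LL x ^ (k + 1) := by
    have h1 : 1 ≤ L9 x ^ k := one_le_pow₀ hL9
    have h2 : 1 ≤ LL x ^ (k + 1) := one_le_pow₀ hLL
    nlinarith
  have hC24 : 0 ≤ C2 * (4 : ℝ) ^ (k + 1) := by positivity
  calc ‖∑ n ∈ Icc 1 N, LSeries.term f s n + ∑ n ∈ Ioc N M, LSeries.term f s n‖
      ≤ ‖∑ n ∈ Icc 1 N, LSeries.term f s n‖ + ‖∑ n ∈ Ioc N M, LSeries.term f s n‖ :=
        norm_add_le _ _
    _ ≤ (1 + 2 * C1 * ((D : ℝ) + 3) ^ (k + 1) * (L9 x ^ k * LL x ^ (k + 1))) +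
        C2 * 4 ^ (k + 1) := add_le_add hpart1 hpart2
    _ ≤ (1 + 2 * C1 * ((D : ℝ) + 3) ^ (k + 1) + C2 * 4 ^ (k + 1)) *
        (L9 x ^ k * LL x ^ (k + 1)) := by nlinarith
    _ = _ := by ring

theorem zy_up [T0] : ∃ C : ℝ, 1 ≤ C ∧ ∃ x0 : ℕ, ∀ x : ℕ, x0 ≤ x → ∀ (d : ℕ) (s : ℂ), 1 ≤ d → 1 < s.re → s.re ≤ 2 →
    ‖Lk (qm x d) 1 0 s‖ ≤ C * (1 + 1 / ((s.re - 1) * L9 x)) := by
  obtain ⟨C1, hC1, hr⟩ := rzeta
  obtain ⟨x2, hx2⟩ := yx_ev
  refine ⟨2 * C1, by linarith, x2, ?_⟩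
  intro x hx d s hd hs1 hs2
  obtain ⟨hy3, hly1, hly2, hLL, hL9, hL1, hyx⟩ := hx2 x hx
  set y := Yx x with hydef
  set σ := s.re with hσdef
  set f : ℕ → ℂ := fun n => ((Real.log n : ℝ) : ℂ) ^ 0 *
    (1 : DirichletCharacter ℂ (qm x d)) (n : ZMod (qm x d)) with hfdef
  unfold Lk
  refine Up_lseries f s (Lk_summable _ _ 0 s hs1) _ y fun M hM => ?_
  refine (norm_sum_le _ _).trans ?_
  have hn1 : ∀ n : ℕ, 1 ≤ n → ‖LSeries.term f s n‖ =
      ‖(1 : DirichletCharacter ℂ (qm x d)) (n : ZMod (qm x d))‖ * (n : ℝ) ^ (-σ) := by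
    intro n hn
    have h2 : (0 : ℝ) ≤ (n : ℝ) ^ (-σ) := Real.rpow_nonneg (Nat.cast_nonneg _) _
    rw [Up_term 0 n hn _ s f rfl, norm_mul, norm_mul, Pool.Agent.H91.PK.LSa_norm_ee, mul_one,
      Complex.norm_real, Real.norm_eq_abs, pow_zero, one_mul, abs_of_nonneg h2]
  have hle : ∀ n : ℕ, 1 ≤ n → ‖LSeries.term f s n‖ ≤ (n : ℝ) ^ (-σ) := by
    intro n hn
    have h2 : (0 : ℝ) ≤ (n : ℝ) ^ (-σ) := Real.rpow_nonneg (Nat.cast_nonneg _) _
    rw [hn1 n hn]
    calc _ ≤ 1 * (n : ℝ) ^ (-σ) :=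
          mul_le_mul_of_nonneg_right (DirichletCharacter.norm_le_one _ _) h2
      _ = _ := one_mul _
  refine (Up_split y M (by omega) hM _ ?_ ?_).trans ?_
  · refine (hle 1 le_rfl).trans ?_
    rw [Nat.cast_one, Real.one_rpow]
  · intro n hn hc
    have h3 : ¬ IsUnit ((n : ℕ) : ZMod (qm x d)) := by
      rw [ZMod.isUnit_iff_coprime]
      intro h4
      apply hc
      unfold qm at h4
      exact Nat.Coprime.coprime_mul_left_right h4
    rw [hn1 n hn, MulChar.map_nonunit _ h3, norm_zero, zero_mul]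
  · have h3 : ∑ n ∈ (Ioc y M).filter (fun n => n.Coprime (primorial y)),
        ‖LSeries.term f s n‖ ≤
        ∑ n ∈ (Ioc y M).filter (fun n => n.Coprime (primorial y)), (n : ℝ) ^ (-σ) := by
      refine Finset.sum_le_sum fun n hn => ?_
      rw [mem_filter, mem_Ioc] at hn
      exact hle n (by omega)
    have h4 := hr y M σ (by omega) hM hs1 hs2
    have hσ0 : 0 < σ - 1 := by linarith
    have hly0 : 0 < Real.log y := by linarith
    have h5 : C1 / ((σ - 1) * Real.log y) ≤ 2 * C1 * (1 / ((σ - 1) * L9 x)) := by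
      rw [mul_one_div, div_le_div_iff₀ (by positivity) (by positivity)]
      have h6 : C1 * ((σ - 1) * L9 x) ≤ C1 * ((σ - 1) * (2 * Real.log y)) := by
        refine mul_le_mul_of_nonneg_left (mul_le_mul_of_nonneg_left ?_ hσ0.le) (by linarith)
        linarith
      nlinarith
    nlinarith

end Pool.Agent.H76.VKT
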